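import Pool.Agent.H75.Bunchy.Quot

/-!
# Bunchy synchronizing factors when few full vertices are in conflict
-/

set_option autoImplicit false
set_option linter.unusedSectionVars false
set_option linter.deprecated false

namespace Pool.Agent.H75.Bunchy

open Set
open scoped Classical

/-- The condition on a pair `(I, J)` of vertices of `H` (with `m ≥ 2` edges from `I` to `J`):
* at most three vertices over `I` are full, or
* any two full vertices over `I` have a common follower, or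
* some vertex over `I` has, with every full vertex over `I`, a common follower over `J`, or
* there are a vertex `t`, a vertex `z` and a sequence `I, J₁, …, Jₙ` of vertices of `H` in which
  no consecutive pair joined by at least two edges occurs twice and in which `(I, J)` does not
  occur except possibly as the first consecutive pair, such that every full vertex `x ≠ z` over
  `I` reaches `t` by a path of `G` over this sequence. -/
def Good {G H : Graph} (v : G.V → H.V) (I J : H.V) : Prop :=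
  (Full v I J).ncard ≤ 3 ∨
  (∀ x ∈ Full v I J, ∀ y ∈ Full v I J, (G.Followers x ∩ G.Followers y).Nonempty) ∨
  (∃ x, v x = I ∧ ∀ y ∈ Full v I J, (FollowersOver v x J ∩ FollowersOver v y J).Nonempty) ∨
  (∃ (β : List H.V) (t z : G.V),
    ((I :: β).zip β).Pairwise (fun a b => a = b → H.mult a.1 a.2 ≤ 1) ∧
      (I, J) ∉ ((I :: β).zip β).tail ∧ ∀ x ∈ Full v I J, x ≠ z → Along v x β t)

section Heredity
variable {G Q H : Graph}

lemma followersOver_image (Ψ : RightResolver G Q) (θ : Q.V → H.V) (v : G.V → H.V)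
    (hv : ∀ p, θ (Ψ.v p) = v p) (p : G.V) (J : H.V) :
    FollowersOver θ (Ψ.v p) J = Ψ.v '' FollowersOver v p J := by
  ext c
  constructor
  · rintro ⟨hc, hJ⟩
    rw [followers_image] at hc
    obtain ⟨q, hq, rfl⟩ := hc
    exact ⟨q, ⟨hq, by rw [← hv]; exact hJ⟩, rfl⟩
  · rintro ⟨q, ⟨hq, hJ⟩, rfl⟩
    refine ⟨?_, by rw [hv]; exact hJ⟩
    rw [followers_image]
    exact ⟨q, hq, rfl⟩

lemma full_subset (Ψ : RightResolver G Q) (θ : Q.V → H.V) (Φ : RightResolver G H)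
    (hv : ∀ p, θ (Ψ.v p) = Φ.v p) (I J : H.V) {p : G.V} (h : Ψ.v p ∈ Full θ I J) :
    p ∈ Full Φ.v I J := by
  obtain ⟨h1, h2⟩ := h
  rw [hv] at h1
  refine ⟨h1, le_antisymm ?_ ?_⟩
  · rw [← h1]; exact Φ.ncard_followersOver_le p J
  · rw [← h2, followersOver_image Ψ θ Φ.v hv]
    exact Set.ncard_image_le (Set.toFinite _)

lemma along_image (Ψ : RightResolver G Q) (θ : Q.V → H.V) (v : G.V → H.V)
    (hv : ∀ p, θ (Ψ.v p) = v p) (t : G.V) (β : List H.V) (q : G.V) (h : Along v q β t) :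
    Along θ (Ψ.v q) β (Ψ.v t) := by
  induction β generalizing q with
  | nil => exact congrArg Ψ.v h
  | cons K β ih =>
    obtain ⟨q', hq', h'⟩ := h
    refine ⟨Ψ.v q', ?_, ih q' h'⟩
    rw [followersOver_image Ψ θ v hv]
    exact ⟨q', hq', rfl⟩

lemma Good.image (Ψ : RightResolver G Q) (θ : Q.V → H.V) (Φ : RightResolver G H)
    (hv : ∀ p, θ (Ψ.v p) = Φ.v p) (I J : H.V) (h : Good Φ.v I J) : Good θ I J := by
  rcases h with h | h | ⟨x, hx, h⟩ | ⟨β, t, z, hβ, hIJ, h⟩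
  · left
    have hsub : Full θ I J ⊆ Ψ.v '' Full Φ.v I J := by
      intro c hc
      obtain ⟨p, rfl⟩ := Ψ.v_surj c
      exact ⟨p, full_subset Ψ θ Φ hv I J hc, rfl⟩
    exact (Set.ncard_le_ncard hsub (Set.toFinite _)).trans
      ((Set.ncard_image_le (Set.toFinite _)).trans h)
  · right; left
    intro x hx y hy
    obtain ⟨p, rfl⟩ := Ψ.v_surj x
    obtain ⟨q, rfl⟩ := Ψ.v_surj y
    obtain ⟨K, hK1, hK2⟩ := h p (full_subset Ψ θ Φ hv I J hx) q (full_subset Ψ θ Φ hv I J hy)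
    refine ⟨Ψ.v K, ?_, ?_⟩
    · rw [followers_image]; exact ⟨K, hK1, rfl⟩
    · rw [followers_image]; exact ⟨K, hK2, rfl⟩
  · right; right; left
    refine ⟨Ψ.v x, by rw [hv, hx], ?_⟩
    intro y hy
    obtain ⟨q, rfl⟩ := Ψ.v_surj y
    obtain ⟨K, hK1, hK2⟩ := h q (full_subset Ψ θ Φ hv I J hy)
    refine ⟨Ψ.v K, ?_, ?_⟩
    · rw [followersOver_image Ψ θ Φ.v hv]; exact ⟨K, hK1, rfl⟩
    · rw [followersOver_image Ψ θ Φ.v hv]; exact ⟨K, hK2, rfl⟩
  · right; right; right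
    refine ⟨β, Ψ.v t, Ψ.v z, hβ, hIJ, ?_⟩
    intro x hx hxz
    obtain ⟨p, rfl⟩ := Ψ.v_surj x
    have hpz : p ≠ z := fun hh => hxz (by rw [hh])
    exact along_image Ψ θ Φ.v hv t _ p (h p (full_subset Ψ θ Φ hv I J hx) hpz)

end Heredity

lemma run_congr {V E : Type*} {a b : V → E → V} {u : List E}
    (h : ∀ e ∈ u, ∀ p, a p e = b p e) (p : V) : run a p u = run b p u := by
  induction u generalizing p with
  | nil => rfl
  | cons e u ih =>
    simp only [run_cons]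
    rw [h e List.mem_cons_self, ih fun e' he' => h e' (List.mem_cons_of_mem _ he')]

section Along
variable {G H : Graph}

/-- Recolour so that one word leads from all `q` that reach `t` along `β` to `t`. -/
lemma exists_along (t : G.V) (β : List H.V) : ∀ (K : H.V) (Φ : RightResolver G H),
    ((K :: β).zip β).Pairwise (fun a b => a = b → H.mult a.1 a.2 ≤ 1) →
    ∃ (Φ' : RightResolver G H) (u : List H.E), Φ'.v = Φ.v ∧
      (∀ q, Φ.v q = K → Along Φ.v q β t → Valid H.src H.tgt K u ∧ run Φ'.act q u = t) ∧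
      (∀ e ∈ u, (H.src e, H.tgt e) ∈ (K :: β).zip β) := by
  induction β with
  | nil =>
    intro K Φ _
    exact ⟨Φ, [], rfl, fun q _ h => ⟨trivial, h⟩, by simp⟩
  | cons J β ih =>
    intro K Φ hβ
    have hz : (K :: J :: β).zip (J :: β) = (K, J) :: ((J :: β).zip β) := rfl
    rw [hz, List.pairwise_cons] at hβ
    obtain ⟨Φ₁, u₁, hv₁, hrun₁, hu₁⟩ := ih J Φ hβ.2
    rw [hz]
    by_cases hex : ∃ q, Φ.v q = K ∧ Along Φ.v q (J :: β) t
    · obtain ⟨q₀, hq₀, q₁, hq₁, -⟩ := hex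
      rw [Φ.mem_followersOver] at hq₁
      obtain ⟨e₀, hs₀, ht₀, -⟩ := hq₁
      rw [hq₀] at hs₀
      by_cases hm : H.mult K J ≤ 1
      · refine ⟨Φ₁, e₀ :: u₁, hv₁, ?_, ?_⟩
        · rintro q hq ⟨q', hq', hal⟩
          have hq'' : q' ∈ FollowersOver Φ₁.v q J := by rw [hv₁]; exact hq'
          rw [Φ₁.mem_followersOver] at hq''
          obtain ⟨g, hg1, hg2, hg3⟩ := hq''
          have hg0 : g = e₀ := by
            have hm' := (Set.ncard_le_one (Set.toFinite _)).1 hm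
            exact hm' g ⟨by rw [hg1, hv₁, hq], hg2⟩ e₀ ⟨hs₀, ht₀⟩
          subst hg0
          have hvq' : Φ.v q' = J := hq'.2
          obtain ⟨h1, h2⟩ := hrun₁ q' hvq' hal
          refine ⟨⟨hs₀, by rw [ht₀]; exact h1⟩, ?_⟩
          rw [run_cons, hg3]; exact h2
        · intro e he
          rw [List.mem_cons] at he
          rcases he with rfl | he
          · rw [hs₀, ht₀]; exact List.mem_cons_self
          · exact List.mem_cons_of_mem _ (hu₁ e he)
      · have hnot : (K, J) ∉ (J :: β).zip β := fun hmem => hm (hβ.1 _ hmem rfl)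
        obtain ⟨Φ₂, hv₂, hΦ₂⟩ := Φ₁.exists_recolor (fun q π =>
          (∀ g, ¬ (H.src g = H.src e₀ ∧ H.tgt g = H.tgt e₀) → π g = g) ∧
          (Φ.v q = K → Along Φ.v q (J :: β) t →
            ∃ q', Φ.v q' = J ∧ Along Φ.v q' β t ∧ Φ₁.act q (π e₀) = q')) (by
          intro q
          by_cases hq : Φ.v q = K ∧ Along Φ.v q (J :: β) t
          · obtain ⟨hqK, q', hq', hal⟩ := hq
            have hq'' : q' ∈ FollowersOver Φ₁.v q J := by rw [hv₁]; exact hq'
            rw [Φ₁.mem_followersOver] at hq''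
            obtain ⟨g, hg1, hg2, hg3⟩ := hq''
            obtain ⟨π, hπ1, hπ2, hπ3⟩ := exists_perm1 H (e := e₀) (f := g)
              (by rw [hg1, hv₁, hqK, hs₀]) (by rw [hg2, ht₀])
            exact ⟨π, hπ1, hπ2, fun _ _ => ⟨q', hq'.2, hal, by rw [hπ3]; exact hg3⟩⟩
          · exact ⟨1, fun _ => ⟨rfl, rfl⟩, fun _ _ => rfl, fun h1 h2 => absurd ⟨h1, h2⟩ hq⟩)
        have hact : ∀ e ∈ u₁, ∀ p, Φ₂.act p e = Φ₁.act p e := by
          intro e he p
          obtain ⟨π, _, hQ, hπ⟩ := hΦ₂ p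
          rw [hπ, hQ.1 e]
          rintro ⟨h1, h2⟩
          apply hnot
          have := hu₁ e he
          rw [h1, h2, hs₀, ht₀] at this
          exact this
        refine ⟨Φ₂, e₀ :: u₁, by rw [hv₂, hv₁], ?_, ?_⟩
        · intro q hq hal
          obtain ⟨π, _, hQ, hπ⟩ := hΦ₂ q
          obtain ⟨q', hq'1, hq'2, hq'3⟩ := hQ.2 hq hal
          obtain ⟨h1, h2⟩ := hrun₁ q' hq'1 hq'2
          refine ⟨⟨hs₀, by rw [ht₀]; exact h1⟩, ?_⟩
          rw [run_cons, hπ, hq'3, run_congr hact]; exact h2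
        · intro e he
          rw [List.mem_cons] at he
          rcases he with rfl | he
          · rw [hs₀, ht₀]; exact List.mem_cons_self
          · exact List.mem_cons_of_mem _ (hu₁ e he)
    · refine ⟨Φ₁, [], hv₁, fun q hq hal => absurd ⟨q, hq, hal⟩ hex, by simp⟩

end Along

section StepLemma
variable {G H : Graph}

/-- A non-full vertex has two parallel labels with the same target. -/
lemma exists_same (Φ : RightResolver G H) {I J : H.V} {p : G.V} (hp : Φ.v p = I)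
    (hn : p ∉ Full Φ.v I J) : ∃ f₁ f₂ : H.E, f₁ ≠ f₂ ∧ (H.src f₁ = I ∧ H.tgt f₁ = J) ∧
      (H.src f₂ = I ∧ H.tgt f₂ = J) ∧ Φ.act p f₁ = Φ.act p f₂ := by
  rw [Φ.mem_full_iff] at hn
  push Not at hn
  have := hn hp
  unfold Set.InjOn at this
  push Not at this
  obtain ⟨f₁, h1, f₂, h2, h3, h4⟩ := this
  exact ⟨f₁, f₂, h4, h1, h2, h3⟩

lemma exists_perm_same (Φ : RightResolver G H) {I J : H.V} {p : G.V} (hp : Φ.v p = I)
    (hn : p ∉ Full Φ.v I J) {e1 e2 : H.E} (h12 : e1 ≠ e2) (hs1 : H.src e1 = I)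
    (ht1 : H.tgt e1 = J) (hs2 : H.src e2 = I) (ht2 : H.tgt e2 = J) :
    ∃ π : Equiv.Perm H.E, (∀ g, H.src (π g) = H.src g ∧ H.tgt (π g) = H.tgt g) ∧
      (∀ g, ¬ (H.src g = H.src e1 ∧ H.tgt g = H.tgt e1) → π g = g) ∧
      Φ.act p (π e1) = Φ.act p (π e2) := by
  obtain ⟨f₁, f₂, hf, ⟨ha, hb⟩, ⟨hc, hd⟩, he⟩ := exists_same Φ hp hn
  obtain ⟨π, h1, h2, h3, h4⟩ := exists_perm2 H h12 hf (by rw [hs1, hs2]) (by rw [ht1, ht2])
    (by rw [hs1, ha]) (by rw [ht1, hb]) (by rw [hs1, hc]) (by rw [ht1, hd])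
  exact ⟨π, h1, h2, by rw [h3, h4]; exact he⟩

/-- for a recolouring in which the labels agree off the full vertices, `Diff` is the full set -/
lemma diff_eq_full (Φ' : RightResolver G H) {I J : H.V} {e1 e2 : H.E} (h12 : e1 ≠ e2)
    (hs1 : H.src e1 = I) (ht1 : H.tgt e1 = J) (hs2 : H.src e2 = I) (ht2 : H.tgt e2 = J)
    (h : ∀ p, Φ'.v p = I → p ∉ Full Φ'.v I J → Φ'.act p e1 = Φ'.act p e2) :
    Diff H.src Φ'.v Φ'.act e1 e2 = Full Φ'.v I J := by
  ext p
  constructor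
  · rintro ⟨h1, h2⟩
    by_contra hn
    exact h2 (h p (by rw [← h1, hs1]) hn)
  · intro hp
    obtain ⟨h1, h2⟩ := (Φ'.mem_full_iff I J p).1 hp
    refine ⟨by rw [hs1, h1], fun heq => h12 (h2 ⟨hs1, ht1⟩ ⟨hs2, ht2⟩ heq)⟩

/-- A vertex over `I` with two followers over `J` that has a common follower with all other full
vertices over `I`. -/
lemma star_step (Φ : RightResolver G H) (hG : G.StronglyConnected) {g g' : H.E} (h12 : g ≠ g')
    (hsg' : H.src g' = H.src g) (htg' : H.tgt g' = H.tgt g) {x₀ : G.V} (hx₀ : Φ.v x₀ = H.src g)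
    {g₁ g₂ : H.E} (h1s : H.src g₁ = H.src g) (h1t : H.tgt g₁ = H.tgt g)
    (h2s : H.src g₂ = H.src g) (h2t : H.tgt g₂ = H.tgt g) (hne : Φ.act x₀ g₁ ≠ Φ.act x₀ g₂)
    (hcf : ∀ y ∈ Full Φ.v (H.src g) (H.tgt g), y ≠ x₀ → (G.Followers x₀ ∩ G.Followers y).Nonempty) :
    ∃ Φ' : RightResolver G H, Φ'.v = Φ.v ∧ ¬ NoStable H.src H.tgt Φ'.v Φ'.act := by
  have hg12 : g₁ ≠ g₂ := fun h => hne (by rw [h])
  obtain ⟨π₀, hπ₀1, -, hπ₀g, hπ₀g'⟩ := exists_perm2 H h12 hg12 hsg'.symm htg'.symm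
    h1s.symm h1t.symm h2s.symm h2t.symm
  obtain ⟨Φ', hv, hΦ'⟩ := Φ.exists_recolor (fun p π =>
    (p ≠ x₀ → Φ.v p = H.src g → p ∉ Full Φ.v (H.src g) (H.tgt g) →
      Φ.act p (π g) = Φ.act p (π g')) ∧
    (p ∈ Full Φ.v (H.src g) (H.tgt g) → p ≠ x₀ →
      ∃ i, H.src i = H.src g ∧ Φ.act p (π i) = Φ.act x₀ (π₀ i)) ∧
    (p = x₀ → π = π₀)) (by
      intro p
      by_cases hpx : p = x₀
      · exact ⟨π₀, hπ₀1, fun h => absurd hpx h, fun _ h => absurd hpx h, fun _ => rfl⟩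
      by_cases hp : Φ.v p = H.src g ∧ p ∉ Full Φ.v (H.src g) (H.tgt g)
      · obtain ⟨π, h1, _, h3⟩ := exists_perm_same Φ hp.1 hp.2 h12 rfl rfl hsg' htg'
        exact ⟨π, h1, fun _ _ _ => h3, fun h => absurd h hp.2, fun h => absurd h hpx⟩
      by_cases hpf : p ∈ Full Φ.v (H.src g) (H.tgt g)
      · obtain ⟨K, hK1, hK2⟩ := hcf p hpf hpx
        have hK1' : K ∈ FollowersOver Φ.v x₀ (Φ.v K) := ⟨hK1, rfl⟩
        have hK2' : K ∈ FollowersOver Φ.v p (Φ.v K) := ⟨hK2, rfl⟩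
        rw [Φ.mem_followersOver] at hK1' hK2'
        obtain ⟨i, hi1, hi2, hi3⟩ := hK1'
        obtain ⟨j, hj1, hj2, hj3⟩ := hK2'
        have hvp : Φ.v p = H.src g := hpf.1
        have hi' := hπ₀1 (π₀.symm i)
        rw [Equiv.apply_symm_apply] at hi'
        obtain ⟨π, hπ1, _, hπ3⟩ := exists_perm1 H (e := π₀.symm i) (f := j)
          (by rw [← hi'.1, hi1, hj1, hvp, hx₀]) (by rw [← hi'.2, hi2, hj2])
        refine ⟨π, hπ1, fun _ h1 h2 => absurd ⟨h1, h2⟩ hp, fun _ _ => ⟨π₀.symm i, ?_, ?_⟩,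
          fun h => absurd h hpx⟩
        · rw [← hi'.1, hi1, hx₀]
        · rw [hπ3, hj3, Equiv.apply_symm_apply, hi3]
      · exact ⟨1, fun _ => ⟨rfl, rfl⟩, fun _ h1 h2 => absurd ⟨h1, h2⟩ hp,
          fun h => absurd h hpf, fun h => absurd h hpx⟩)
  obtain ⟨ρ, _, hQ₀, hρ⟩ := hΦ' x₀
  have hρ₀ := hQ₀.2.2 rfl
  refine ⟨Φ', hv, universal hsg'.symm htg'.symm Φ'.act_typed (Φ'.conn hG) (x := x₀) ?_ ?_⟩
  · refine ⟨by rw [hv]; exact hx₀.symm, ?_⟩
    rw [hρ, hρ, hρ₀, hπ₀g, hπ₀g']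
    exact hne
  · intro y hy hyx hdead
    obtain ⟨π, _, hQ, hπ⟩ := hΦ' y
    by_cases hyf : y ∈ Full Φ.v (H.src g) (H.tgt g)
    · obtain ⟨i, hi, hact⟩ := hQ.2.1 hyf hyx
      refine hdead.2 [i] ⟨?_, trivial⟩ ?_
      · rw [hv, hi]; exact hx₀.symm
      · simp only [run_cons, run_nil]
        rw [hπ, hρ, hact, hρ₀]
    · apply hy.2
      rw [hπ, hπ]
      exact hQ.1 hyx (by rw [← hv]; exact hy.1.symm) hyf

/-- The main step: a recolouring with a nontrivial stable pair. -/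
theorem exists_recolor_stable (Φ : RightResolver G H) (hG : G.StronglyConnected) {p₀ : G.V}
    {g g' : H.E} (hsg : H.src g = Φ.v p₀) (hsg' : H.src g' = H.src g) (htg' : H.tgt g' = H.tgt g)
    (hne : Φ.act p₀ g ≠ Φ.act p₀ g') (hgood : Good Φ.v (H.src g) (H.tgt g)) :
    ∃ Φ' : RightResolver G H, Φ'.v = Φ.v ∧ ¬ NoStable H.src H.tgt Φ'.v Φ'.act := by
  set I := H.src g with hI
  set J := H.tgt g with hJ
  have h12 : g ≠ g' := fun h => hne (by rw [h])
  -- from a flip to a recolouring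
  have conv : ∀ Φ' : RightResolver G H, Φ'.v = Φ.v →
      (∃ δ : Set G.V, ¬ NoStable H.src H.tgt Φ'.v (flip g g' δ Φ'.act)) →
      ∃ Φ'' : RightResolver G H, Φ''.v = Φ.v ∧ ¬ NoStable H.src H.tgt Φ''.v Φ''.act := by
    rintro Φ' hv ⟨δ, hδ⟩
    obtain ⟨Φ'', hv'', hact⟩ := Φ'.exists_flip hsg'.symm htg'.symm δ
    exact ⟨Φ'', by rw [hv'', hv], by rw [hv'', hact]; exact hδ⟩
  -- common followers
  have common : (∀ x ∈ Full Φ.v I J, ∀ y ∈ Full Φ.v I J,
      (G.Followers x ∩ G.Followers y).Nonempty) →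
      ∃ Φ' : RightResolver G H, Φ'.v = Φ.v ∧ ¬ NoStable H.src H.tgt Φ'.v Φ'.act := by
    intro hcf
    by_cases hfull : (Full Φ.v I J).Nonempty
    · obtain ⟨x₀, hx₀⟩ := hfull
      have hinj := ((Φ.mem_full_iff I J x₀).1 hx₀).2
      exact star_step Φ hG h12 hsg' htg' hx₀.1 rfl rfl hsg' htg'
        (fun h => h12 (hinj ⟨rfl, rfl⟩ ⟨hsg', htg'⟩ h)) (fun y hy _ => hcf x₀ hx₀ y hy)
    · exact star_step Φ hG h12 hsg' htg' hsg.symm rfl rfl hsg' htg' hne
        (fun y hy _ => absurd ⟨y, hy⟩ hfull)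
  by_cases hfull : (Full Φ.v I J).Nonempty
  swap
  · exact common fun x hx => absurd ⟨x, hx⟩ hfull
  rcases hgood with hgood | hgood | ⟨x₀, hx₀, hgood⟩ | ⟨β, t, z, hβ, hIJ, hgood⟩
  · -- at most three full vertices
    obtain ⟨Φ', hv, hΦ'⟩ := Φ.exists_recolor (fun p π =>
      Φ.v p = I → p ∉ Full Φ.v I J → Φ.act p (π g) = Φ.act p (π g')) (by
        intro p
        by_cases hp : Φ.v p = I ∧ p ∉ Full Φ.v I J
        · obtain ⟨π, h1, _, h3⟩ := exists_perm_same Φ hp.1 hp.2 h12 rfl rfl hsg' htg'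
          exact ⟨π, h1, fun _ _ => h3⟩
        · exact ⟨1, fun _ => ⟨rfl, rfl⟩, fun h1 h2 => absurd ⟨h1, h2⟩ hp⟩)
    have hD : Diff H.src Φ'.v Φ'.act g g' = Full Φ'.v I J := by
      refine diff_eq_full Φ' h12 rfl rfl hsg' htg' ?_
      intro p hp hpf
      obtain ⟨π, _, hQ, hπ⟩ := hΦ' p
      rw [hπ, hπ]
      exact hQ (by rw [← hv]; exact hp) (by rw [← hv]; exact hpf)
    refine conv Φ' hv (three hsg'.symm htg'.symm Φ'.act_typed (Φ'.conn hG) ?_ ?_)
    · rw [hD, hv]; exact hfull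
    · rw [hD, hv]; exact hgood
  · -- pairwise common followers
    exact common hgood
  · -- one vertex over `I` with common followers over `J`
    by_cases hx2 : ∃ g₁ g₂ : H.E, H.src g₁ = I ∧ H.tgt g₁ = J ∧ H.src g₂ = I ∧ H.tgt g₂ = J ∧
        Φ.act x₀ g₁ ≠ Φ.act x₀ g₂
    · obtain ⟨g₁, g₂, h1, h2, h3, h4, h5⟩ := hx2
      refine star_step Φ hG h12 hsg' htg' hx₀ h1 h2 h3 h4 h5 (fun y hy _ => ?_)
      obtain ⟨K, hK1, hK2⟩ := hgood y hy
      exact ⟨K, hK1.1, hK2.1⟩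
    · refine common fun x hx y hy => ?_
      obtain ⟨K, hK1, hK2⟩ := hgood x hx
      obtain ⟨K', hK1', hK2'⟩ := hgood y hy
      have hKK : K = K' := by
        rw [Φ.mem_followersOver] at hK1 hK1'
        obtain ⟨i, hi1, hi2, hi3⟩ := hK1
        obtain ⟨i', hi1', hi2', hi3'⟩ := hK1'
        rw [← hi3, ← hi3']
        by_contra hcon
        exact hx2 ⟨i, i', by rw [hi1, hx₀], hi2, by rw [hi1', hx₀], hi2', hcon⟩
      subst hKK
      exact ⟨K, hK2.1, hK2'.1⟩
  · -- all but one full vertices reach `t`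
    have hm : ¬ H.mult I J ≤ 1 := by
      intro h
      have h' := (Set.ncard_le_one (Set.toFinite _)).1 h
      exact h12 (h' g ⟨rfl, rfl⟩ g' ⟨hsg', htg'⟩)
    -- it suffices to find a word
    have suff : ∀ (Φ' : RightResolver G H) (w : List H.E), Φ'.v = Φ.v →
        (∀ p, Φ.v p = I → p ∉ Full Φ.v I J → Φ'.act p g = Φ'.act p g') →
        (∀ x ∈ Full Φ.v I J, x ≠ z → Valid H.src H.tgt I w ∧ run Φ'.act x w = t ∧
          run (flip g g' {z} Φ'.act) x w = t) →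
        ∃ Φ'' : RightResolver G H, Φ''.v = Φ.v ∧ ¬ NoStable H.src H.tgt Φ''.v Φ''.act := by
      intro Φ' w hvv hoff hword
      have hD : Diff H.src Φ'.v Φ'.act g g' = Full Φ'.v I J :=
        diff_eq_full Φ' h12 rfl rfl hsg' htg' fun p hp hpf =>
          hoff p (by rw [← hvv]; exact hp) (by rw [← hvv]; exact hpf)
      refine conv Φ' hvv (allButOne hsg'.symm htg'.symm Φ'.act_typed (Φ'.conn hG) ?_ z ?_)
      · rw [hD, hvv]; exact hfull
      · intro x hx y hy hxz hyz _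
        rw [hD, hvv] at hx hy
        obtain ⟨hx1, hx2, hx3⟩ := hword x hx hxz
        obtain ⟨hy1, hy2, hy3⟩ := hword y hy hyz
        have hvx : Φ.v x = I := hx.1
        rw [← hvx] at hx1
        rw [hvv]
        exact ⟨fun hd => hd.2 _ hx1 (by rw [hx2, hy2]), fun hd => hd.2 _ hx1 (by rw [hx3, hy3])⟩
    by_cases hfirst : (I, J) ∈ (I :: β).zip β
    · -- the first step of the sequence is `(I, J)`
      cases β with
      | nil => simp at hfirst
      | cons J' α =>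
      have hzip : (I :: J' :: α).zip (J' :: α) = (I, J') :: ((J' :: α).zip α) := rfl
      rw [hzip, List.tail_cons] at hIJ
      rw [hzip, List.mem_cons] at hfirst
      have hJJ' : J = J' := by
        rcases hfirst with h | h
        · exact (Prod.mk.inj h).2
        · exact absurd h hIJ
      rw [← hJJ'] at hβ hgood hIJ hzip
      rw [hzip, List.pairwise_cons] at hβ
      obtain ⟨Φ₁, u₁, hv₁, hrun₁, hu₁⟩ := exists_along t α J Φ hβ.2
      obtain ⟨Φ', hv, hΦ'⟩ := Φ₁.exists_recolor (fun p π =>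
        (∀ f, ¬ (H.src f = H.src g ∧ H.tgt f = H.tgt g) → π f = f) ∧
        (Φ.v p = I → p ∉ Full Φ.v I J → Φ₁.act p (π g) = Φ₁.act p (π g')) ∧
        (p ∈ Full Φ.v I J → p ≠ z → ∃ q', Φ.v q' = J ∧ Along Φ.v q' α t ∧
          Φ₁.act p (π g) = q')) (by
          intro p
          by_cases hp : Φ.v p = I ∧ p ∉ Full Φ.v I J
          · obtain ⟨π, h1, h2, h3⟩ := exists_perm_same Φ₁ (p := p) (I := I) (J := J)
              (by rw [hv₁]; exact hp.1) (by rw [hv₁]; exact hp.2) h12 rfl rfl hsg' htg'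
            exact ⟨π, h1, h2, fun _ _ => h3, fun h => absurd h hp.2⟩
          by_cases hpf : p ∈ Full Φ.v I J ∧ p ≠ z
          · obtain ⟨q', hq', hal⟩ := hgood p hpf.1 hpf.2
            have hvp : Φ.v p = I := hpf.1.1
            have hq'' : q' ∈ FollowersOver Φ₁.v p J := by rw [hv₁]; exact hq'
            rw [Φ₁.mem_followersOver] at hq''
            obtain ⟨f, hf1, hf2, hf3⟩ := hq''
            obtain ⟨π, hπ1, hπ2, hπ3⟩ := exists_perm1 H (e := g) (f := f)
              (by rw [hf1, hv₁, hvp]) (by rw [hf2])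
            exact ⟨π, hπ1, hπ2, fun h1 h2 => absurd ⟨h1, h2⟩ hp,
              fun _ _ => ⟨q', hq'.2, hal, by rw [hπ3]; exact hf3⟩⟩
          · exact ⟨1, fun _ => ⟨rfl, rfl⟩, fun _ _ => rfl, fun h1 h2 => absurd ⟨h1, h2⟩ hp,
              fun h1 h2 => absurd ⟨h1, h2⟩ hpf⟩)
      have hvv : Φ'.v = Φ.v := by rw [hv, hv₁]
      have hact : ∀ e ∈ u₁, ∀ p, Φ'.act p e = Φ₁.act p e := by
        intro e he p
        obtain ⟨π, _, hQ, hπ⟩ := hΦ' p
        rw [hπ, hQ.1 e]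
        rintro ⟨h1, h2⟩
        apply hIJ
        have := hu₁ e he
        rw [h1, h2] at this
        exact this
      have hact' : ∀ e ∈ u₁, ∀ p, flip g g' {z} Φ'.act p e = Φ₁.act p e := by
        intro e he p
        rw [flip_other, hact e he]
        · rintro rfl
          exact hIJ (hu₁ _ he)
        · rintro rfl
          have := hu₁ _ he
          rw [hsg', htg'] at this
          exact hIJ this
      refine suff Φ' (g :: u₁) hvv ?_ ?_
      · intro p hp hpf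
        obtain ⟨π, _, hQ, hπ⟩ := hΦ' p
        rw [hπ, hπ]
        exact hQ.2.1 hp hpf
      · intro x hx hxz
        obtain ⟨π, _, hQ, hπ⟩ := hΦ' x
        obtain ⟨q', hq'1, hq'2, hq'3⟩ := hQ.2.2 hx hxz
        obtain ⟨h1, h2⟩ := hrun₁ q' hq'1 hq'2
        have hx1 : Φ'.act x g = q' := by rw [hπ]; exact hq'3
        refine ⟨⟨rfl, h1⟩, ?_, ?_⟩
        · rw [run_cons, hx1, run_congr hact]; exact h2
        · have hxn : x ∉ ({z} : Set G.V) := hxz
          rw [run_cons, flip_of_notMem hxn, hx1, run_congr hact']; exact h2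
    · -- the pair `(I, J)` does not occur
      obtain ⟨Φ₁, u, hv₁, hrun₁, hu₁⟩ := exists_along t β I Φ hβ
      obtain ⟨Φ', hv, hΦ'⟩ := Φ₁.exists_recolor (fun p π =>
        (∀ f, ¬ (H.src f = H.src g ∧ H.tgt f = H.tgt g) → π f = f) ∧
        (Φ.v p = I → p ∉ Full Φ.v I J → Φ₁.act p (π g) = Φ₁.act p (π g'))) (by
          intro p
          by_cases hp : Φ.v p = I ∧ p ∉ Full Φ.v I J
          · obtain ⟨π, h1, h2, h3⟩ := exists_perm_same Φ₁ (p := p) (I := I) (J := J)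
              (by rw [hv₁]; exact hp.1) (by rw [hv₁]; exact hp.2) h12 rfl rfl hsg' htg'
            exact ⟨π, h1, h2, fun _ _ => h3⟩
          · exact ⟨1, fun _ => ⟨rfl, rfl⟩, fun _ _ => rfl, fun h1 h2 => absurd ⟨h1, h2⟩ hp⟩)
      have hvv : Φ'.v = Φ.v := by rw [hv, hv₁]
      have hact : ∀ e ∈ u, ∀ p, Φ'.act p e = Φ₁.act p e := by
        intro e he p
        obtain ⟨π, _, hQ, hπ⟩ := hΦ' p
        rw [hπ, hQ.1 e]
        rintro ⟨h1, h2⟩
        apply hfirst
        have := hu₁ e he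
        rw [h1, h2] at this
        exact this
      have hact' : ∀ e ∈ u, ∀ p, flip g g' {z} Φ'.act p e = Φ₁.act p e := by
        intro e he p
        rw [flip_other, hact e he]
        · rintro rfl
          exact hfirst (hu₁ _ he)
        · rintro rfl
          have := hu₁ _ he
          rw [hsg', htg'] at this
          exact hfirst this
      refine suff Φ' u hvv ?_ ?_
      · intro p hp hpf
        obtain ⟨π, _, hQ, hπ⟩ := hΦ' p
        rw [hπ, hπ]
        exact hQ.2 hp hpf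
      · intro x hx hxz
        obtain ⟨h1, h2⟩ := hrun₁ x hx.1 (hgood x hx hxz)
        refine ⟨h1, ?_, ?_⟩
        · rw [run_congr hact]; exact h2
        · rw [run_congr hact']; exact h2

end StepLemma

/-- The relative form of the theorem. -/
theorem relative (H : Graph) : ∀ (n : ℕ) (G : Graph), Nat.card G.V = n → G.StronglyConnected →
    ∀ Φ : RightResolver G H, (∀ I J, 2 ≤ H.mult I J → Good Φ.v I J) →
    ∃ (Q : Graph) (Θ : RightResolver Q H) (Ψ : RightResolver G Q), Ψ.Synchronizing ∧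
      (∀ p, Θ.v (Ψ.v p) = Φ.v p) ∧
      ∀ c : Q.V, Set.BijOn Θ.v (Q.Followers c) (H.Followers (Θ.v c)) := by
  intro n
  induction n using Nat.strong_induction_on with
  | _ n ih =>
  intro G hn hG Φ hgood
  by_cases hb : ∀ c : G.V, Set.BijOn Φ.v (G.Followers c) (H.Followers (Φ.v c))
  · exact ⟨G, Φ, RightResolver.id G, RightResolver.id_synchronizing G, fun _ => rfl, hb⟩
  push Not at hb
  obtain ⟨p₀, hp₀⟩ := hb
  -- two followers with the same image
  have hmaps : Set.MapsTo Φ.v (G.Followers p₀) (H.Followers (Φ.v p₀)) := by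
    intro q hq; rw [followers_image]; exact ⟨q, hq, rfl⟩
  have hsurj : Set.SurjOn Φ.v (G.Followers p₀) (H.Followers (Φ.v p₀)) := by
    rw [followers_image]; exact Set.surjOn_image _ _
  have hninj : ¬ Set.InjOn Φ.v (G.Followers p₀) := fun h => hp₀ ⟨hmaps, h, hsurj⟩
  unfold Set.InjOn at hninj
  push Not at hninj
  obtain ⟨q, ⟨f, hf1, hf2⟩, q', ⟨f', hf1', hf2'⟩, hqq, hne⟩ := hninj
  have hsg : H.src (Φ.e f) = Φ.v p₀ := by rw [Φ.src_comm, hf1]
  have hsg' : H.src (Φ.e f') = H.src (Φ.e f) := by rw [Φ.src_comm, Φ.src_comm, hf1, hf1']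
  have htg' : H.tgt (Φ.e f') = H.tgt (Φ.e f) := by
    rw [Φ.tgt_comm, Φ.tgt_comm, hf2, hf2', hqq]
  have hact : Φ.act p₀ (Φ.e f) ≠ Φ.act p₀ (Φ.e f') := by
    have h1 := Φ.act_eq f
    have h2 := Φ.act_eq f'
    rw [hf1] at h1
    rw [hf1'] at h2
    rw [h1, h2, hf2, hf2']; exact hne
  have hmult : 2 ≤ H.mult (H.src (Φ.e f)) (H.tgt (Φ.e f)) := by
    have h12 : Φ.e f ≠ Φ.e f' := fun h => hact (by rw [h])
    rw [← Set.ncard_pair h12]
    refine Set.ncard_le_ncard ?_ (Set.toFinite _)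
    rintro x (rfl | rfl)
    · exact ⟨rfl, rfl⟩
    · exact ⟨hsg', htg'⟩
  obtain ⟨Φ', hv, hst⟩ := exists_recolor_stable Φ hG hsg hsg' htg' hact (hgood _ _ hmult)
  have hlt := card_quot_lt Φ' hst
  rw [hn] at hlt
  obtain ⟨Q, Θ, Ψ, hΨ, hcomm, hbij⟩ := ih _ hlt Φ'.quot rfl (StronglyConnected.map Φ'.proj hG)
    Φ'.desc (fun I J hIJ => by
      refine Good.image Φ'.proj Φ'.desc.v Φ' (fun p => Φ'.desc_proj_v p) I J ?_
      rw [hv]; exact hgood I J hIJ)
  refine ⟨Q, Θ, RightResolver.comp Ψ Φ'.proj,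
    RightResolver.Synchronizing.comp hΨ Φ'.proj_synchronizing, fun p => ?_, hbij⟩
  rw [RightResolver.comp_v, hcomm, Φ'.desc_proj_v, hv]

/-- **Main theorem.** -/
theorem main (G B : Graph) (hG : G.StronglyConnected) (hB : IsBunchy B) (Φ : RightResolver G B)
    (hgood : ∀ I J, 2 ≤ B.mult I J → Good Φ.v I J) :
    ∃ H : Graph, IsBunchy H ∧ ∃ Ψ : RightResolver G H, Ψ.Synchronizing := by
  obtain ⟨Q, Θ, Ψ, hΨ, _, hbij⟩ := relative B _ G rfl hG Φ hgood
  obtain ⟨M, hM, Λ, hΛ⟩ := hB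
  refine ⟨Q, ⟨M, hM, RightResolver.comp Λ Θ, fun I => ?_⟩, Ψ, hΨ⟩
  exact (hΛ (Θ.v I)).comp (hbij I)

end Pool.Agent.H75.Bunchy
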