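import Pool.Agent.H75.Bunchy.Resolver

/-!
# The quotient by the stable pairs; composition of synchronizing right resolvers
-/

set_option autoImplicit false
set_option linter.unusedSectionVars false
set_option linter.deprecated false

namespace Pool.Agent.H75.Bunchy

open Set
open scoped Classical

section Stable
variable {V K E : Type*} {s t : E → K} {σ : V → K} {a : V → E → V}

lemma Stable.refl (x : V) : Stable s t σ a x x := ⟨rfl, fun _ _ => ⟨[], trivial, rfl⟩⟩

lemma Stable.symm {x y : V} (h : Stable s t σ a x y) : Stable s t σ a y x := by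
  refine ⟨h.1.symm, fun v hv => ?_⟩
  rw [← h.1] at hv ⊢
  obtain ⟨u, hu, he⟩ := h.2 v hv
  exact ⟨u, hu, he.symm⟩

lemma Stable.trans {x y z : V} (h : Stable s t σ a x y) (h' : Stable s t σ a y z) :
    Stable s t σ a x z := by
  refine ⟨h.1.trans h'.1, fun v hv => ?_⟩
  obtain ⟨u, hu, he⟩ := h.2 v hv
  have hvu : Valid s t (σ y) (v ++ u) := by
    rw [valid_append, ← h.1]; exact ⟨hv, hu⟩
  obtain ⟨w, hw, he'⟩ := h'.2 (v ++ u) hvu
  rw [← h.1, fin_append] at hw
  refine ⟨u ++ w, ?_, ?_⟩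
  · rw [valid_append]; exact ⟨hu, hw⟩
  · rw [← List.append_assoc, run_append, he, ← run_append, he']

lemma Stable.run (ha : Typed s t σ a) {x y : V} (h : Stable s t σ a x y) {v : List E}
    (hv : Valid s t (σ x) v) : Stable s t σ a (Bunchy.run a x v) (Bunchy.run a y v) := by
  have hx := ha.run x v hv
  have hy := ha.run y v (by rw [← h.1]; exact hv)
  refine ⟨by rw [hx, hy, h.1], fun w hw => ?_⟩
  rw [hx] at hw ⊢
  have hvw : Valid s t (σ x) (v ++ w) := by rw [valid_append]; exact ⟨hv, hw⟩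
  obtain ⟨u, hu, he⟩ := h.2 _ hvw
  rw [fin_append] at hu
  refine ⟨u, hu, ?_⟩
  rw [← run_append, ← run_append, ← List.append_assoc]
  exact he

lemma Stable.letter (ha : Typed s t σ a) {x y : V} (h : Stable s t σ a x y) {e : E}
    (he : s e = σ x) : Stable s t σ a (a x e) (a y e) :=
  h.run ha (v := [e]) ⟨he, trivial⟩

/-- a finite set of pairwise stable states can be merged -/
lemma merge_finset (k : K) (Z : Finset V) :
    (∀ x ∈ Z, σ x = k) → (∀ x ∈ Z, ∀ y ∈ Z, Stable s t σ a x y) →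
    ∃ u, Valid s t k u ∧ ∀ x ∈ Z, ∀ y ∈ Z, run a x u = run a y u := by
  induction Z using Finset.induction_on with
  | empty => intro _ _; exact ⟨[], trivial, by simp⟩
  | insert x Z hx ih =>
    intro hk hst
    obtain ⟨u, hu, hm⟩ := ih (fun y hy => hk y (Finset.mem_insert_of_mem hy))
      (fun y hy z hz => hst y (Finset.mem_insert_of_mem hy) z (Finset.mem_insert_of_mem hz))
    by_cases hZ : Z.Nonempty
    · obtain ⟨z, hz⟩ := hZ
      have hxk : σ x = k := hk x (Finset.mem_insert_self _ _)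
      obtain ⟨w, hw, he⟩ := (hst x (Finset.mem_insert_self _ _) z
        (Finset.mem_insert_of_mem hz)).2 u (by rw [hxk]; exact hu)
      rw [hxk] at hw
      refine ⟨u ++ w, by rw [valid_append]; exact ⟨hu, hw⟩, ?_⟩
      have key : ∀ y ∈ insert x Z, run a y (u ++ w) = run a z (u ++ w) := by
        intro y hy
        rw [Finset.mem_insert] at hy
        rcases hy with rfl | hy
        · exact he
        · rw [run_append, run_append, hm y hy z hz]
      intro y hy y' hy'
      rw [key y hy, key y' hy']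
    · rw [Finset.not_nonempty_iff_eq_empty] at hZ
      subst hZ
      refine ⟨u, hu, ?_⟩
      intro y hy y' hy'
      simp only [insert_empty_eq, Finset.mem_singleton] at hy hy'
      rw [hy, hy']

end Stable

namespace RightResolver
variable {G H L : Graph} (Φ : RightResolver G H)

/-- the stability relation as a setoid -/
def stab : Setoid G.V where
  r x y := Stable H.src H.tgt Φ.v Φ.act x y
  iseqv := ⟨fun x => Stable.refl x, fun h => h.symm, fun h h' => h.trans h'⟩

/-- the quotient graph -/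
noncomputable def quot : Graph where
  V := Quotient Φ.stab
  E := {x : Quotient Φ.stab × H.E // H.src x.2 = Φ.v x.1.out}
  src := fun x => x.1.1
  tgt := fun x => Quotient.mk Φ.stab (Φ.act x.1.1.out x.1.2)

lemma out_stable (p : G.V) :
    Stable H.src H.tgt Φ.v Φ.act (Quotient.mk Φ.stab p).out p :=
  Quotient.exact (s := Φ.stab) (Quotient.out_eq _)

lemma v_out (p : G.V) : Φ.v (Quotient.mk Φ.stab p).out = Φ.v p := (Φ.out_stable p).1

/-- the projection onto the quotient -/
noncomputable def proj : RightResolver G Φ.quot :=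
  mk' (H := Φ.quot) (fun p => Quotient.mk Φ.stab p)
    (fun f => ⟨(Quotient.mk Φ.stab (G.src f), Φ.e f), by
      simp only; rw [v_out, Φ.src_comm]⟩)
    (fun _ => rfl)
    (fun f => by
      apply Quotient.sound (s := Φ.stab)
      have h1 := (Φ.out_stable (G.src f)).letter Φ.act_typed (e := Φ.e f)
        (by rw [v_out, Φ.src_comm])
      rw [Φ.act_eq] at h1
      exact h1)
    (Quotient.mk_surjective)
    (by
      intro I
      refine ⟨?_, ?_, ?_⟩
      · rintro f rfl; rfl
      · rintro f rfl f' hf' h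
        have h2 := congrArg (fun x => x.1.2) h
        exact Φ.edge_unique (Eq.symm hf') h2
      · rintro ⟨⟨c, g⟩, hg⟩ hc
        change c = Quotient.mk Φ.stab I at hc
        subst hc
        simp only at hg
        rw [v_out] at hg
        obtain ⟨f, rfl, rfl⟩ := Φ.exists_edge I hg
        exact ⟨f, rfl, rfl⟩)

/-- the induced right resolver of the quotient -/
noncomputable def desc : RightResolver Φ.quot H :=
  mk' (G := Φ.quot) (fun c => Φ.v (Quotient.out (s := Φ.stab) c)) (fun x => x.1.2) (fun x => x.2)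
    (fun x => by
      change H.tgt x.1.2 = Φ.v (Quotient.mk Φ.stab (Φ.act x.1.1.out x.1.2)).out
      rw [v_out]
      exact (Φ.act_typed _ _ x.2).symm)
    (by
      intro k
      obtain ⟨p, hp⟩ := Φ.v_surj k
      exact ⟨Quotient.mk Φ.stab p, by simp only; rw [v_out, hp]⟩)
    (by
      intro c
      refine ⟨?_, ?_, ?_⟩
      · rintro x rfl; exact x.2
      · rintro ⟨⟨c1, g1⟩, h1⟩ hc1 ⟨⟨c2, g2⟩, h2⟩ hc2 h
        change c1 = c at hc1
        change c2 = c at hc2
        change g1 = g2 at h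
        subst hc1 hc2 h
        rfl
      · intro g hg
        exact ⟨⟨(c, g), hg⟩, rfl, rfl⟩)

lemma desc_proj_v (p : G.V) : Φ.desc.v (Φ.proj.v p) = Φ.v p := Φ.v_out p

lemma desc_proj_e (f : G.E) : Φ.desc.e (Φ.proj.e f) = Φ.e f := rfl

/-- existence of the end vertex -/
lemma exists_leads (I : G.V) (w : List H.E) (hw : H.IsPath (Φ.v I) w) : ∃ K, Φ.Leads I w K :=
  ⟨_, (Φ.leads_iff I w _).2 ⟨(isPath_iff _ _ _).1 hw, rfl⟩⟩

lemma leads_unique {I : G.V} {w : List H.E} {K K' : G.V} (h : Φ.Leads I w K)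
    (h' : Φ.Leads I w K') : K = K' := by
  rw [leads_iff] at h h'
  rw [← h.2, ← h'.2]

lemma leads_map (Θ : RightResolver H L) (Φ : RightResolver G H) {I K : G.V} {w : List H.E}
    (h : Φ.Leads I w K) : (comp Θ Φ).Leads I (w.map Θ.e) K := by
  induction h with
  | nil I => exact Leads.nil I
  | cons f w K _ ih => exact Leads.cons (Φ := comp Θ Φ) f _ K ih

/-- a path of `H` from `Φ.v I` is the image of a path of `G` -/
lemma leads_comp (Θ : RightResolver H L) (Φ : RightResolver G H) {I K : G.V} {w : List L.E}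
    (h : (comp Θ Φ).Leads I w K) : ∃ u, Φ.Leads I u K ∧ H.IsPath (Φ.v I) u ∧ u.map Θ.e = w := by
  induction h with
  | nil I => exact ⟨[], Leads.nil I, trivial, rfl⟩
  | cons f w K _ ih =>
    obtain ⟨u, hu, hp, rfl⟩ := ih
    refine ⟨Φ.e f :: u, Leads.cons f u K hu, ⟨Φ.src_comm f, ?_⟩, rfl⟩
    rw [Φ.tgt_comm]; exact hp

lemma leads_down (Θ : RightResolver H L) (Φ : RightResolver G H) {I K : G.V} {w : List L.E}
    (h : (comp Θ Φ).Leads I w K) : Θ.Leads (Φ.v I) w (Φ.v K) := by
  induction h with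
  | nil I => exact Leads.nil _
  | cons f w K _ ih =>
    have := Leads.cons (Φ := Θ) (Φ.e f) w (Φ.v K) (by rw [Φ.tgt_comm]; exact ih)
    rw [Φ.src_comm] at this
    exact this

lemma leads_append {I K K' : G.V} {w w' : List H.E} (h : Φ.Leads I w K) (h' : Φ.Leads K w' K') :
    Φ.Leads I (w ++ w') K' := by
  induction h with
  | nil I => exact h'
  | cons f w K _ ih => exact Leads.cons f _ _ (ih h')

lemma leads_split {I K' : G.V} {w w' : List H.E} (h : Φ.Leads I (w ++ w') K') :
    ∃ K, Φ.Leads I w K ∧ Φ.Leads K w' K' := by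
  induction w generalizing I with
  | nil => exact ⟨I, Leads.nil I, h⟩
  | cons g w ih =>
    cases h with
    | cons f _ _ h =>
      obtain ⟨K, h1, h2⟩ := ih h
      exact ⟨K, Leads.cons f w K h1, h2⟩

lemma isPath_append (H : Graph) (J : H.V) (w w' : List H.E) :
    H.IsPath J (w ++ w') ↔ H.IsPath J w ∧ H.IsPath (fin H.tgt J w) w' := by
  simp only [isPath_iff, valid_append]

lemma isPath_map (Θ : RightResolver H L) {J : H.V} {w : List H.E} (h : H.IsPath J w) :
    L.IsPath (Θ.v J) (w.map Θ.e) := by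
  induction w generalizing J with
  | nil => trivial
  | cons g w ih =>
    obtain ⟨rfl, h2⟩ := h
    refine ⟨Θ.src_comm g, ?_⟩
    rw [Θ.tgt_comm]; exact ih h2

/-- the composition of synchronizing right resolvers is synchronizing -/
lemma Synchronizing.comp {Θ : RightResolver H L} {Φ : RightResolver G H} (hΘ : Θ.Synchronizing)
    (hΦ : Φ.Synchronizing) : (comp Θ Φ).Synchronizing := by
  intro J
  obtain ⟨w, hw, h1⟩ := hΘ J
  obtain ⟨c, hc⟩ := Set.ncard_eq_one.1 h1
  obtain ⟨w', hw', h2⟩ := hΦ c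
  obtain ⟨k, hk⟩ := Set.ncard_eq_one.1 h2
  -- the end vertex of `w` is `Θ.v c`
  have hcm : c ∈ {K | ∃ I, Θ.v I = J ∧ Θ.Leads I w K} := by rw [hc]; exact mem_singleton c
  obtain ⟨I0, hI0, hl0⟩ := hcm
  have hfin : fin L.tgt J w = Θ.v c := by
    rw [leads_iff] at hl0
    have := Θ.act_typed.run I0 w hl0.1
    rw [hl0.2, hI0] at this
    exact this.symm
  have hpath : L.IsPath J (w ++ w'.map Θ.e) := by
    rw [isPath_append, hfin]
    exact ⟨hw, isPath_map Θ hw'⟩
  refine ⟨w ++ w'.map Θ.e, hpath, ?_⟩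
  rw [Set.ncard_eq_one]
  refine ⟨k, Set.eq_singleton_iff_nonempty_unique_mem.2 ⟨?_, ?_⟩⟩
  · obtain ⟨I, hI⟩ := (RightResolver.comp Θ Φ).v_surj J
    obtain ⟨K, hK⟩ := (RightResolver.comp Θ Φ).exists_leads I (w ++ w'.map Θ.e)
      (by rw [hI]; exact hpath)
    exact ⟨K, I, hI, hK⟩
  · rintro K ⟨I, hI, hK⟩
    obtain ⟨m, hm1, hm2⟩ := (RightResolver.comp Θ Φ).leads_split hK
    have hmc : Φ.v m = c := by
      have h3 := leads_down Θ Φ hm1
      have : Φ.v m ∈ {K | ∃ I, Θ.v I = J ∧ Θ.Leads I w K} := ⟨Φ.v I, hI, h3⟩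
      rw [hc] at this
      exact this
    obtain ⟨K', hK'⟩ := Φ.exists_leads m w' (by rw [hmc]; exact hw')
    have h4 := leads_map Θ Φ hK'
    have h5 := (RightResolver.comp Θ Φ).leads_unique hm2 h4
    have h6 : K' ∈ {K | ∃ I, Φ.v I = c ∧ Φ.Leads I w' K} := ⟨m, hmc, hK'⟩
    rw [hk] at h6
    rw [h5]; exact h6

lemma id_synchronizing (G : Graph) : (RightResolver.id G).Synchronizing := by
  intro J
  refine ⟨[], trivial, ?_⟩
  rw [Set.ncard_eq_one]
  refine ⟨J, ?_⟩
  ext K
  constructor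
  · rintro ⟨I, rfl, h⟩
    cases h
    rfl
  · rintro rfl
    exact ⟨_, rfl, Leads.nil _⟩

/-- the projection onto the quotient by stable pairs is synchronizing -/
lemma proj_synchronizing : Φ.proj.Synchronizing := by
  intro J
  obtain ⟨p, rfl⟩ := Φ.proj.v_surj J
  have hfin : Set.Finite {q | Φ.proj.v q = Φ.proj.v p} := Set.toFinite _
  have hst : ∀ q, Φ.proj.v q = Φ.proj.v p → Stable H.src H.tgt Φ.v Φ.act q p :=
    fun q hq => Quotient.exact (s := Φ.stab) hq
  obtain ⟨u, hu, hm⟩ := merge_finset (s := H.src) (t := H.tgt) (σ := Φ.v) (a := Φ.act) (Φ.v p)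
    hfin.toFinset
    (fun x hx => by
      rw [Set.Finite.mem_toFinset] at hx
      exact (hst x hx).1)
    (fun x hx y hy => by
      rw [Set.Finite.mem_toFinset] at hx hy
      exact (hst x hx).trans (hst y hy).symm)
  have hlead : Φ.Leads p u (run Φ.act p u) := (Φ.leads_iff _ _ _).2 ⟨hu, rfl⟩
  have hcomp : ∀ {I K : G.V} {w : List H.E}, Φ.Leads I w K → (comp Φ.desc Φ.proj).Leads I w K := by
    intro I K w h
    induction h with
    | nil I => exact Leads.nil I
    | cons f w K _ ih => exact Leads.cons (Φ := comp Φ.desc Φ.proj) f _ K ih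
  have hcomp' : ∀ {I K : G.V} {w : List H.E}, (comp Φ.desc Φ.proj).Leads I w K → Φ.Leads I w K := by
    intro I K w h
    induction h with
    | nil I => exact Leads.nil I
    | cons f w K _ ih => exact Leads.cons (Φ := Φ) f _ K ih
  obtain ⟨w, hw1, hw2, hw3⟩ := leads_comp Φ.desc Φ.proj (hcomp hlead)
  refine ⟨w, hw2, ?_⟩
  rw [Set.ncard_eq_one]
  refine ⟨run Φ.act p u, Set.eq_singleton_iff_unique_mem.2 ⟨⟨p, rfl, hw1⟩, ?_⟩⟩
  rintro K ⟨I, hI, hK⟩
  have h1 := hcomp' (leads_map Φ.desc Φ.proj hK)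
  rw [hw3, leads_iff] at h1
  rw [← h1.2]
  exact hm I (by rw [Set.Finite.mem_toFinset]; exact hI) p (by rw [Set.Finite.mem_toFinset]; rfl)

end RightResolver

lemma StronglyConnected.map {G H : Graph} (Φ : RightResolver G H) (hG : G.StronglyConnected) :
    H.StronglyConnected := by
  intro I J
  obtain ⟨p, rfl⟩ := Φ.v_surj I
  obtain ⟨q, rfl⟩ := Φ.v_surj J
  refine Relation.ReflTransGen.lift Φ.v ?_ _ _ (hG p q)
  rintro x y ⟨f, rfl, rfl⟩
  exact ⟨Φ.e f, Φ.src_comm f, Φ.tgt_comm f⟩

lemma followers_image {G H : Graph} (Φ : RightResolver G H) (p : G.V) :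
    H.Followers (Φ.v p) = Φ.v '' G.Followers p := by
  ext J
  constructor
  · rintro ⟨g, hg, rfl⟩
    obtain ⟨f, rfl, rfl⟩ := Φ.exists_edge p hg
    exact ⟨G.tgt f, ⟨f, rfl, rfl⟩, (Φ.tgt_comm f).symm⟩
  · rintro ⟨q, ⟨f, rfl, rfl⟩, rfl⟩
    exact ⟨Φ.e f, Φ.src_comm f, Φ.tgt_comm f⟩

lemma card_quot_lt {G H : Graph} (Φ : RightResolver G H)
    (h : ¬ NoStable H.src H.tgt Φ.v Φ.act) : Nat.card Φ.quot.V < Nat.card G.V := by
  unfold NoStable at h
  push Not at h
  obtain ⟨x, y, hxy, hne⟩ := h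
  have hsurj := Φ.proj.v_surj
  have hle := Nat.card_le_card_of_surjective _ hsurj
  refine lt_of_le_of_ne hle fun heq => hne ?_
  have hbij := (Nat.bijective_iff_surjective_and_card _).2 ⟨hsurj, heq.symm⟩
  exact hbij.1 (Quotient.sound (s := Φ.stab) hxy)

end Pool.Agent.H75.Bunchy
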