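import Pool.Agent.H75.Bunchy.Resolver

/-!
# Existence and uniqueness of the `≤_R`-minimal factor (Ashley, Marcus and Tuncel)

These facts show that the definition of bunchy graphs does not depend on the choice of the
minimal factor and of the right resolver onto it.
-/

set_option autoImplicit false
set_option linter.unusedSectionVars false
set_option linter.deprecated false

namespace Pool.Agent.H75.Bunchy

open Set
open scoped Classical

/-- Equitable equivalence relations: related vertices have the same number of edges into each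
union of classes. -/
def Equitable (G : Graph) (R : Setoid G.V) : Prop :=
  ∀ C : Set G.V, (∀ x y, R x y → x ∈ C → y ∈ C) → ∀ x y, R x y →
    {f | G.src f = x ∧ G.tgt f ∈ C}.ncard = {f | G.src f = y ∧ G.tgt f ∈ C}.ncard

lemma RightResolver.ncard_edges {G H : Graph} (Φ : RightResolver G H) (D : Set H.V) (x : G.V) :
    {f | G.src f = x ∧ G.tgt f ∈ Φ.v ⁻¹' D}.ncard = {g | H.src g = Φ.v x ∧ H.tgt g ∈ D}.ncard := by
  rw [← Set.ncard_image_of_injOn (f := Φ.e) (s := {f | G.src f = x ∧ G.tgt f ∈ Φ.v ⁻¹' D})]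
  · congr 1
    ext g
    constructor
    · rintro ⟨f, ⟨rfl, hf⟩, rfl⟩
      exact ⟨Φ.src_comm f, by rw [Φ.tgt_comm]; exact hf⟩
    · rintro ⟨h1, h2⟩
      obtain ⟨f, hf, rfl⟩ := Φ.exists_edge x h1
      refine ⟨f, ⟨hf, ?_⟩, rfl⟩
      rw [mem_preimage, ← Φ.tgt_comm]; exact h2
  · rintro f ⟨hf, _⟩ f' ⟨hf', _⟩ h
    exact Φ.edge_unique (by rw [hf, hf']) h

/-- the kernel of a right resolver is equitable -/
lemma RightResolver.equitable_ker {G H : Graph} (Φ : RightResolver G H) :
    Equitable G (Setoid.ker Φ.v) := by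
  intro C hC x y hxy
  have hCD : C = Φ.v ⁻¹' (Φ.v '' C) := by
    ext z
    constructor
    · intro hz; exact ⟨z, hz, rfl⟩
    · rintro ⟨z', hz', h⟩
      exact hC z' z h hz'
  rw [hCD, Φ.ncard_edges, Φ.ncard_edges]
  have : Φ.v x = Φ.v y := hxy
  rw [this]

lemma Equitable.sup {G : Graph} {R S : Setoid G.V} (hR : Equitable G R) (hS : Equitable G S) :
    Equitable G (R ⊔ S) := by
  intro C hC x y hxy
  have hCR : ∀ x y, R x y → x ∈ C → y ∈ C := fun x y h =>
    hC x y ((le_sup_left : R ≤ R ⊔ S) h)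
  have hCS : ∀ x y, S x y → x ∈ C → y ∈ C := fun x y h =>
    hC x y ((le_sup_right : S ≤ R ⊔ S) h)
  rw [Setoid.sup_eq_eqvGen] at hxy
  change Relation.EqvGen _ x y at hxy
  induction hxy with
  | rel x y h =>
    rcases h with h | h
    · exact hR C hCR x y h
    · exact hS C hCS x y h
  | refl x => rfl
  | symm x y _ ih => exact ih.symm
  | trans x y z _ _ ih1 ih2 => exact ih1.trans ih2

/-- the quotient of a graph by an equitable equivalence relation -/
noncomputable def quotGraph (G : Graph) (R : Setoid G.V) : Graph where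
  V := Quotient R
  E := {f : G.E // G.src f = (Quotient.mk R (G.src f)).out}
  src := fun f => Quotient.mk R (G.src f.1)
  tgt := fun f => Quotient.mk R (G.tgt f.1)

lemma exists_quot {G : Graph} {R : Setoid G.V} (hR : Equitable G R) :
    ∃ (N : Graph) (Ψ : RightResolver G N), ∀ x y, Ψ.v x = Ψ.v y ↔ R x y := by
  -- a bijection from the edges at `x` to those at the chosen representative
  have key : ∀ (x : G.V) (c : Quotient R), ∃ b : G.E → G.E,
      Set.BijOn b {f | G.src f = x ∧ Quotient.mk R (G.tgt f) = c}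
        {f | G.src f = (Quotient.mk R x).out ∧ Quotient.mk R (G.tgt f) = c} := by
    intro x c
    have hrel : R x (Quotient.mk R x).out := (Setoid.symm (Quotient.mk_out x))
    have h := hR {y | Quotient.mk R y = c} (by
      intro p q hpq hp
      exact (Quotient.sound (Setoid.symm hpq)).trans hp) x _ hrel
    by_cases hne : Nonempty G.E
    · have h' : {f | G.src f = x ∧ Quotient.mk R (G.tgt f) = c}.encard =
          {f | G.src f = (Quotient.mk R x).out ∧ Quotient.mk R (G.tgt f) = c}.encard := by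
        rw [← Set.Finite.cast_ncard_eq (Set.toFinite _), ← Set.Finite.cast_ncard_eq (Set.toFinite _)]
        exact congrArg _ h
      exact Set.Finite.exists_bijOn_of_encard_eq (Set.toFinite _) h'
    · refine ⟨fun f => f, fun f => absurd ⟨f⟩ hne, fun f => absurd ⟨f⟩ hne,
        fun f => absurd ⟨f⟩ hne⟩
  choose b hb using key
  have hbs : ∀ f : G.E, G.src (b (G.src f) (Quotient.mk R (G.tgt f)) f) =
      (Quotient.mk R (G.src f)).out ∧
      Quotient.mk R (G.tgt (b (G.src f) (Quotient.mk R (G.tgt f)) f)) =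
        Quotient.mk R (G.tgt f) := fun f => (hb _ _).mapsTo ⟨rfl, rfl⟩
  have hmk : ∀ f : G.E, Quotient.mk R (G.src (b (G.src f) (Quotient.mk R (G.tgt f)) f)) =
      Quotient.mk R (G.src f) := by
    intro f; rw [(hbs f).1]; exact Quotient.out_eq _
  refine ⟨quotGraph G R, RightResolver.mk' (H := quotGraph G R) (fun x => Quotient.mk R x)
    (fun f => ⟨b (G.src f) (Quotient.mk R (G.tgt f)) f, ?_⟩) ?_ ?_ Quotient.mk_surjective ?_, ?_⟩
  · rw [hmk]; exact (hbs f).1
  · intro f; exact hmk f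
  · intro f; exact (hbs f).2
  · intro x
    refine ⟨?_, ?_, ?_⟩
    · rintro f rfl; exact hmk f
    · rintro f rfl f' hf' h
      simp only [mem_setOf_eq] at hf'
      have h1 := congrArg Subtype.val h
      simp only at h1
      have h2 : Quotient.mk R (G.tgt f) = Quotient.mk R (G.tgt f') := by
        rw [← (hbs f).2, ← (hbs f').2, h1]
      rw [hf', ← h2] at h1
      exact (hb (G.src f) (Quotient.mk R (G.tgt f))).injOn ⟨rfl, rfl⟩ ⟨hf', h2.symm⟩ h1
    · rintro ⟨f, hf⟩ hc
      change Quotient.mk R (G.src f) = Quotient.mk R x at hc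
      obtain ⟨f', ⟨hf'1, hf'2⟩, hf'3⟩ := (hb x (Quotient.mk R (G.tgt f))).surjOn
        (a := f) ⟨by rw [← hc]; exact hf, rfl⟩
      refine ⟨f', hf'1, ?_⟩
      apply Subtype.ext
      simp only
      rw [hf'1, hf'2, hf'3]
  · intro x y
    exact Quotient.eq (r := R)

/-- right resolvers with bijective vertex map are isomorphisms -/
lemma RightResolver.bijective_e {G H : Graph} (Φ : RightResolver G H)
    (h : Function.Injective Φ.v) : Function.Bijective Φ.e := by
  refine ⟨fun f f' hf => Φ.edge_unique (h ?_) hf, Φ.e_surj⟩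
  rw [← Φ.src_comm, ← Φ.src_comm, hf]

/-- every graph has a minimal right resolving factor -/
theorem exists_minimal (G : Graph) : ∃ M : Graph, Minimal M ∧ Nonempty (RightResolver G M) := by
  obtain ⟨n, hn⟩ : ∃ n, Nat.card G.V = n := ⟨_, rfl⟩
  induction n using Nat.strong_induction_on generalizing G with
  | _ n ih =>
  by_cases hM : Minimal G
  · exact ⟨G, hM, ⟨RightResolver.id G⟩⟩
  unfold Minimal at hM
  push Not at hM
  obtain ⟨N, Ψ, hΨ⟩ := hM
  have hninj : ¬ Function.Injective Ψ.v := fun h => hΨ ⟨h, Ψ.v_surj⟩ (Ψ.bijective_e h)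
  have hlt : Nat.card N.V < Nat.card G.V := by
    have hle := Nat.card_le_card_of_surjective _ Ψ.v_surj
    refine lt_of_le_of_ne hle fun heq => hninj ?_
    exact ((Nat.bijective_iff_surjective_and_card _).2 ⟨Ψ.v_surj, heq.symm⟩).1
  rw [hn] at hlt
  obtain ⟨M, hM, ⟨Θ⟩⟩ := ih _ hlt N rfl
  exact ⟨M, hM, ⟨RightResolver.comp Θ Ψ⟩⟩

/-- The kernel of a right resolver onto a minimal graph contains every equitable relation that
contains it. -/
lemma Minimal.ker_eq {G M : Graph} (hM : Minimal M) (Φ : RightResolver G M) {S : Setoid G.V}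
    (hS : Equitable G S) (hle : Setoid.ker Φ.v ≤ S) {x y : G.V} (hxy : S x y) :
    Φ.v x = Φ.v y := by
  have hker : ∀ a b, Φ.v a = Φ.v b → S a b := fun a b h => hle h
  -- the relation on `M`
  let T : Setoid M.V := ⟨fun p q => ∀ a b, Φ.v a = p → Φ.v b = q → S a b,
    ⟨fun p a b ha hb => hker a b (by rw [ha, hb]),
     fun h a b ha hb => Setoid.symm (h b a hb ha),
     fun {p q r} h h' a b ha hb => by
      obtain ⟨c, hc⟩ := Φ.v_surj q
      exact Setoid.trans (h a c ha hc) (h' c b hc hb)⟩⟩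
  have hTiff : ∀ a b, T (Φ.v a) (Φ.v b) ↔ S a b := by
    intro a b
    constructor
    · intro h; exact h a b rfl rfl
    · intro h a' b' ha' hb'
      exact Setoid.trans (Setoid.trans (hker a' a ha') h) (hker b b' hb'.symm)
  have hT : Equitable M T := by
    intro C hC p q hpq
    obtain ⟨a, rfl⟩ := Φ.v_surj p
    obtain ⟨b, rfl⟩ := Φ.v_surj q
    rw [← Φ.ncard_edges, ← Φ.ncard_edges]
    refine hS _ ?_ a b ((hTiff a b).1 hpq)
    intro c d hcd hc
    exact hC _ _ ((hTiff c d).2 hcd) hc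
  obtain ⟨N, Ψ, hΨ⟩ := exists_quot hT
  have hinj := (hM N Ψ).1.1
  exact hinj ((hΨ _ _).2 ((hTiff x y).2 hxy))

/-- The vertex maps of two right resolvers onto minimal graphs have the same fibres. -/
theorem Minimal.eq_iff {G M M' : Graph} (hM : Minimal M) (hM' : Minimal M')
    (Φ : RightResolver G M) (Φ' : RightResolver G M') (x y : G.V) :
    Φ.v x = Φ.v y ↔ Φ'.v x = Φ'.v y := by
  have hS := Φ.equitable_ker.sup Φ'.equitable_ker
  constructor
  · intro h
    exact hM'.ker_eq Φ' hS le_sup_right ((le_sup_left : Setoid.ker Φ.v ≤ _) h)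
  · intro h
    exact hM.ker_eq Φ hS le_sup_left ((le_sup_right : Setoid.ker Φ'.v ≤ _) h)

/-- Uniqueness of the minimal factor: two minimal factors of `G` are isomorphic, with an
isomorphism compatible with the vertex maps. -/
theorem Minimal.unique {G M M' : Graph} (hM : Minimal M) (hM' : Minimal M')
    (Φ : RightResolver G M) (Φ' : RightResolver G M') :
    ∃ Λ : RightResolver M M', Function.Bijective Λ.v ∧ Function.Bijective Λ.e ∧
      ∀ x, Λ.v (Φ.v x) = Φ'.v x := by
  have heq := hM.eq_iff hM' Φ Φ'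
  -- the vertex map
  have h1 : ∀ p, ∃ x, Φ.v x = p := Φ.v_surj
  choose r hr using h1
  have hL : ∀ x, Φ'.v (r (Φ.v x)) = Φ'.v x := fun x => (heq _ _).1 (hr _)
  let Λ : RightResolver M M' := RightResolver.mk' (fun p => Φ'.v (r p))
    (fun g => if h : ∃ f, G.src f = r (M.src g) ∧ Φ.e f = g then Φ'.e h.choose else
      (Φ'.e (Φ.e_surj g).choose)) (by
      intro g
      have h : ∃ f, G.src f = r (M.src g) ∧ Φ.e f = g := Φ.exists_edge _ (by rw [hr])
      rw [dif_pos h, Φ'.src_comm, h.choose_spec.1]) (by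
      intro g
      have h : ∃ f, G.src f = r (M.src g) ∧ Φ.e f = g := Φ.exists_edge _ (by rw [hr])
      rw [dif_pos h, Φ'.tgt_comm, ← hL, ← Φ.tgt_comm, h.choose_spec.2]) (by
      intro q
      obtain ⟨x, rfl⟩ := Φ'.v_surj q
      exact ⟨Φ.v x, hL x⟩) (by
      intro p
      refine ⟨?_, ?_, ?_⟩
      · rintro g rfl
        have h : ∃ f, G.src f = r (M.src g) ∧ Φ.e f = g := Φ.exists_edge _ (by rw [hr])
        simp only [mem_setOf_eq]
        rw [dif_pos h, Φ'.src_comm, h.choose_spec.1]
      · rintro g rfl g' hg' hgg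
        rw [mem_setOf_eq] at hg'
        have h : ∃ f, G.src f = r (M.src g) ∧ Φ.e f = g := Φ.exists_edge _ (by rw [hr])
        have h' : ∃ f, G.src f = r (M.src g') ∧ Φ.e f = g' := Φ.exists_edge _ (by rw [hr])
        simp only at hgg
        rw [dif_pos h, dif_pos h'] at hgg
        have := Φ'.edge_unique (by rw [h.choose_spec.1, h'.choose_spec.1, hg']) hgg
        rw [← h.choose_spec.2, ← h'.choose_spec.2, this]
      · intro k hk
        rw [mem_setOf_eq] at hk
        obtain ⟨f, hf1, hf2⟩ := Φ'.exists_edge (r p) hk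
        have hsrc : M.src (Φ.e f) = p := by rw [Φ.src_comm, hf1, hr]
        refine ⟨Φ.e f, hsrc, ?_⟩
        have h : ∃ f', G.src f' = r (M.src (Φ.e f)) ∧ Φ.e f' = Φ.e f :=
          ⟨f, by rw [hsrc, hf1], rfl⟩
        simp only
        rw [dif_pos h, ← hf2]
        congr 1
        exact Φ.edge_unique (by rw [h.choose_spec.1, hsrc, hf1]) h.choose_spec.2)
  refine ⟨Λ, ?_, ?_, hL⟩
  · exact (hM M' Λ).1
  · exact (hM M' Λ).2

/-- `IsBunchy` does not depend on the minimal graph and the right resolver. -/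
theorem isBunchy_iff (G : Graph) : IsBunchy G ↔
    ∀ (M : Graph), Minimal M → ∀ Φ : RightResolver G M,
      ∀ I : G.V, Set.BijOn Φ.v (G.Followers I) (M.Followers (Φ.v I)) := by
  constructor
  · rintro ⟨M, hM, Φ, hΦ⟩ M' hM' Φ' I
    refine ⟨?_, ?_, ?_⟩
    · rintro J ⟨f, rfl, rfl⟩
      exact ⟨Φ'.e f, Φ'.src_comm f, Φ'.tgt_comm f⟩
    · intro p hp q hq h
      exact (hΦ I).injOn hp hq ((hM.eq_iff hM' Φ Φ' p q).2 h)
    · rintro J ⟨g, hg, rfl⟩
      obtain ⟨f, rfl, rfl⟩ := Φ'.exists_edge I hg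
      exact ⟨G.tgt f, ⟨f, rfl, rfl⟩, (Φ'.tgt_comm f).symm⟩
  · intro h
    obtain ⟨M, hM, ⟨Φ⟩⟩ := exists_minimal G
    exact ⟨M, hM, Φ, h M hM Φ⟩

/-- Minimal graphs are bunchy. -/
theorem Minimal.isBunchy {M : Graph} (hM : Minimal M) : IsBunchy M :=
  ⟨M, hM, RightResolver.id M, fun _ => Set.bijOn_id _⟩

end Pool.Agent.H75.Bunchy
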