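import Mathlib

/-!
# Typed deterministic automata

States `V` with a type map `σ : V → K`, letters `E` with `s t : E → K`; a letter `e` may be
applied to a state `p` with `s e = σ p` and leads to a state of type `t e`.
We develop: rank, minimal images, deadlock pairs, stable pairs, and swaps of two parallel letters.
-/

set_option autoImplicit false
set_option linter.unusedSectionVars false
set_option linter.deprecated false

namespace Pool.Agent.H75.Bunchy

open Set

section Words
variable {V K E : Type*}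

/-- `u` is a path starting at `k`. -/
def Valid (s t : E → K) : K → List E → Prop
  | _, [] => True
  | k, e :: u => s e = k ∧ Valid s t (t e) u

/-- end vertex of the path `u` starting at `k`. -/
def fin (t : E → K) : K → List E → K
  | k, [] => k
  | _, e :: u => fin t (t e) u

/-- the state reached from `p` by reading `u`. -/
def run (a : V → E → V) : V → List E → V
  | p, [] => p
  | p, e :: u => run a (a p e) u

variable {s t : E → K} {σ : V → K} {a : V → E → V}

@[simp] lemma valid_nil (k : K) : Valid s t k [] := trivial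
@[simp] lemma valid_cons (k : K) (e : E) (u : List E) :
    Valid s t k (e :: u) ↔ s e = k ∧ Valid s t (t e) u := Iff.rfl
@[simp] lemma fin_nil (k : K) : fin t k [] = k := rfl
@[simp] lemma fin_cons (k : K) (e : E) (u : List E) : fin t k (e :: u) = fin t (t e) u := rfl
@[simp] lemma run_nil (p : V) : run a p [] = p := rfl
@[simp] lemma run_cons (p : V) (e : E) (u : List E) : run a p (e :: u) = run a (a p e) u := rfl

lemma valid_append (k : K) (u v : List E) :
    Valid s t k (u ++ v) ↔ Valid s t k u ∧ Valid s t (fin t k u) v := by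
  induction u generalizing k with
  | nil => simp
  | cons e u ih => simp [ih, and_assoc]

lemma fin_append (k : K) (u v : List E) : fin t k (u ++ v) = fin t (fin t k u) v := by
  induction u generalizing k with
  | nil => simp
  | cons e u ih => simp [ih]

lemma run_append (p : V) (u v : List E) : run a p (u ++ v) = run a (run a p u) v := by
  induction u generalizing p with
  | nil => simp
  | cons e u ih => simp [ih]

/-- a typed action: letters move the type as prescribed. -/
def Typed (s t : E → K) (σ : V → K) (a : V → E → V) : Prop :=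
  ∀ p e, s e = σ p → σ (a p e) = t e

lemma Typed.run (ha : Typed s t σ a) (p : V) (u : List E) (hu : Valid s t (σ p) u) :
    σ (run a p u) = fin t (σ p) u := by
  induction u generalizing p with
  | nil => rfl
  | cons e u ih =>
    obtain ⟨h1, h2⟩ := hu
    have h3 := ha p e h1
    simp only [run_cons, fin_cons]
    rw [← h3]
    exact ih _ (by rw [h3]; exact h2)

/-- one step of the underlying (uncoloured) graph -/
def Step (s : E → K) (σ : V → K) (a : V → E → V) (p q : V) : Prop :=
  ∃ e, s e = σ p ∧ a p e = q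

/-- strongly connected -/
def Conn (s : E → K) (σ : V → K) (a : V → E → V) : Prop :=
  ∀ p q, Relation.ReflTransGen (Step s σ a) p q

lemma exists_word (ha : Typed s t σ a) {p q : V}
    (h : Relation.ReflTransGen (Step s σ a) p q) :
    ∃ u, Valid s t (σ p) u ∧ Bunchy.run a p u = q := by
  induction h with
  | refl => exact ⟨[], trivial, rfl⟩
  | tail _ h2 ih =>
    obtain ⟨u, hu, hq⟩ := ih
    obtain ⟨e, he1, he2⟩ := h2
    refine ⟨u ++ [e], ?_, ?_⟩
    · rw [valid_append]
      refine ⟨hu, ?_⟩
      rw [← ha.run p u hu, hq]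
      exact ⟨he1, trivial⟩
    · rw [run_append, hq]; exact he2

end Words

section Rank
variable {V K E : Type*} [Finite V] {s t : E → K} {σ : V → K} {a : V → E → V}

/-- image of the fibre over `k` under the word `u` -/
def img (σ : V → K) (a : V → E → V) (k : K) (u : List E) : Set V :=
  (fun p => run a p u) '' {p | σ p = k}

/-- the minimal cardinality of an image of a (nonempty) fibre -/
noncomputable def rank (s t : E → K) (σ : V → K) (a : V → E → V) : ℕ :=
  sInf {n | ∃ (p : V) (u : List E), Valid s t (σ p) u ∧ (img σ a (σ p) u).ncard = n}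

lemma rank_le (p : V) (u : List E) (hu : Valid s t (σ p) u) :
    rank s t σ a ≤ (img σ a (σ p) u).ncard :=
  Nat.sInf_le ⟨p, u, hu, rfl⟩

lemma exists_rank0 [Nonempty V] : ∃ (p : V) (u : List E), Valid s t (σ p) u ∧
    (img σ a (σ p) u).ncard = rank s t σ a := by
  have : {n | ∃ (p : V) (u : List E), Valid s t (σ p) u ∧ (img σ a (σ p) u).ncard = n}.Nonempty := by
    obtain ⟨p⟩ := ‹Nonempty V›
    exact ⟨_, p, [], trivial, rfl⟩
  exact Nat.sInf_mem this

lemma img_append_subset (ha : Typed s t σ a) (k : K) (u v : List E) (hu : Valid s t k u) :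
    img σ a k (u ++ v) ⊆ img σ a (fin t k u) v := by
  rintro _ ⟨p, hp, rfl⟩
  simp only [mem_setOf_eq] at hp
  refine ⟨run a p u, ?_, ?_⟩
  · simp only [mem_setOf_eq]
    rw [ha.run p u (by rw [hp]; exact hu), hp]
  · simp [run_append]

lemma img_append (k : K) (u v : List E) :
    img σ a k (u ++ v) = (fun p => run a p v) '' img σ a k u := by
  rw [img, img, ← Set.image_comp]
  refine Set.image_congr fun p _ => ?_
  simp [run_append]

/-- every fibre has a word of minimal rank -/
lemma exists_rank (ha : Typed s t σ a) (hc : Conn s σ a) (p : V) :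
    ∃ u, Valid s t (σ p) u ∧ (img σ a (σ p) u).ncard = rank s t σ a := by
  have : Nonempty V := ⟨p⟩
  obtain ⟨q, v, hv, hr⟩ := exists_rank0 (V := V) (s := s) (t := t) (σ := σ) (a := a)
  obtain ⟨u, hu, hq⟩ := exists_word ha (hc p q)
  have hf : fin t (σ p) u = σ q := by rw [← ha.run p u hu, hq]
  have hval : Valid s t (σ p) (u ++ v) := by
    rw [valid_append, hf]; exact ⟨hu, hv⟩
  refine ⟨u ++ v, hval, le_antisymm ?_ (rank_le p _ hval)⟩
  rw [← hr, ← hf]
  exact Set.ncard_le_ncard (img_append_subset ha _ u v hu) (Set.toFinite _)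

/-- a set is a minimal image -/
def IsFC (s t : E → K) (σ : V → K) (a : V → E → V) (C : Set V) : Prop :=
  ∃ (p : V) (u : List E), Valid s t (σ p) u ∧ C = img σ a (σ p) u ∧ C.ncard = rank s t σ a

lemma IsFC.type (ha : Typed s t σ a) {C : Set V} (hC : IsFC s t σ a C) {x y : V} (hx : x ∈ C)
    (hy : y ∈ C) : σ x = σ y := by
  obtain ⟨p, u, hu, rfl, -⟩ := hC
  obtain ⟨q, hq, rfl⟩ := hx
  obtain ⟨q', hq', rfl⟩ := hy
  simp only [mem_setOf_eq] at hq hq'
  simp only
  rw [ha.run q u (by rw [hq]; exact hu), ha.run q' u (by rw [hq']; exact hu), hq, hq']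

lemma IsFC.image (ha : Typed s t σ a) {C : Set V} (hC : IsFC s t σ a C) {x : V} (hx : x ∈ C)
    {v : List E} (hv : Valid s t (σ x) v) : IsFC s t σ a ((fun p => run a p v) '' C) := by
  obtain ⟨p, u, hu, rfl, hr⟩ := hC
  obtain ⟨q, hq, rfl⟩ := hx
  simp only [mem_setOf_eq] at hq
  have h1 : σ (run a q u) = fin t (σ p) u := by
    rw [ha.run q u (by rw [hq]; exact hu), hq]
  simp only [h1] at hv
  have hval : Valid s t (σ p) (u ++ v) := by rw [valid_append]; exact ⟨hu, hv⟩
  refine ⟨p, u ++ v, hval, (img_append _ _ _).symm, le_antisymm ?_ ?_⟩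
  · rw [← hr]; exact Set.ncard_image_le (Set.toFinite _)
  · rw [← img_append]; exact rank_le p _ hval

/-- a deadlock pair: never merged -/
def Dead (s t : E → K) (σ : V → K) (a : V → E → V) (x y : V) : Prop :=
  σ x = σ y ∧ ∀ v, Valid s t (σ x) v → run a x v ≠ run a y v

lemma Dead.symm {x y : V} (h : Dead s t σ a x y) : Dead s t σ a y x :=
  ⟨h.1.symm, fun v hv => (h.2 v (by rw [h.1]; exact hv)).symm⟩

lemma Dead.ne {x y : V} (h : Dead s t σ a x y) : x ≠ y := h.2 [] trivial

lemma Dead.run (ha : Typed s t σ a) {x y : V} (h : Dead s t σ a x y) {v : List E}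
    (hv : Valid s t (σ x) v) : Dead s t σ a (Bunchy.run a x v) (Bunchy.run a y v) := by
  refine ⟨?_, fun w hw => ?_⟩
  · rw [ha.run x v hv, ha.run y v (by rw [← h.1]; exact hv), h.1]
  · rw [← run_append, ← run_append]
    apply h.2
    rw [valid_append]
    rw [ha.run x v hv] at hw
    exact ⟨hv, hw⟩

/-- a pairwise deadlocked set -/
def DeadSet (s t : E → K) (σ : V → K) (a : V → E → V) (Z : Set V) : Prop :=
  ∀ x ∈ Z, ∀ y ∈ Z, x ≠ y → Dead s t σ a x y

lemma IsFC.deadSet (ha : Typed s t σ a) {C : Set V} (hC : IsFC s t σ a C) :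
    DeadSet s t σ a C := by
  intro x hx y hy hxy
  refine ⟨hC.type ha hx hy, fun v hv heq => ?_⟩
  have h1 := (hC.image ha hx hv)
  obtain ⟨_, _, _, _, h2⟩ := h1
  obtain ⟨_, _, _, _, h3⟩ := hC
  have hinj : Set.InjOn (fun p => run a p v) C := by
    apply Set.injOn_of_ncard_image_eq _ (Set.toFinite _)
    rw [h2, h3]
  exact hxy (hinj hx hy heq)

lemma exists_FC (ha : Typed s t σ a) (hc : Conn s σ a) (x : V) : ∃ C, IsFC s t σ a C ∧ x ∈ C := by
  obtain ⟨u, hu, hr⟩ := exists_rank ha hc x
  have hC : IsFC s t σ a (img σ a (σ x) u) := ⟨x, u, hu, rfl, hr⟩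
  have hx : run a x u ∈ img σ a (σ x) u := ⟨x, rfl, rfl⟩
  obtain ⟨v, hv, hq⟩ := exists_word ha (hc (run a x u) x)
  exact ⟨_, hC.image ha hx hv, ⟨_, hx, hq⟩⟩

lemma DeadSet.injOn {Z : Set V} (hZ : DeadSet s t σ a Z) {k : K} (hk : ∀ x ∈ Z, σ x = k)
    {v : List E} (hv : Valid s t k v) : Set.InjOn (fun p => run a p v) Z := by
  intro x hx y hy h
  by_contra hne
  exact (hZ x hx y hy hne).2 v (by rw [hk x hx]; exact hv) h

lemma DeadSet.ncard_le (ha : Typed s t σ a) (hc : Conn s σ a) {Z : Set V}
    (hZ : DeadSet s t σ a Z) {x : V} (hx : x ∈ Z) : Z.ncard ≤ rank s t σ a := by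
  obtain ⟨u, hu, hr⟩ := exists_rank ha hc x
  have hk : ∀ y ∈ Z, σ y = σ x := by
    intro y hy
    by_cases h : y = x
    · rw [h]
    · exact (hZ y hy x hx h).1
  have hinj := hZ.injOn hk hu
  rw [← hr, ← Set.ncard_image_of_injOn hinj]
  refine Set.ncard_le_ncard ?_ (Set.toFinite _)
  rintro _ ⟨y, hy, rfl⟩
  exact ⟨y, hk y hy, rfl⟩

/-- a stable pair: after any word it can still be merged -/
def Stable (s t : E → K) (σ : V → K) (a : V → E → V) (x y : V) : Prop :=
  σ x = σ y ∧ ∀ v, Valid s t (σ x) v →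
    ∃ u, Valid s t (fin t (σ x) v) u ∧ run a x (v ++ u) = run a y (v ++ u)

/-- Two deadlocked sets of maximal size that differ in exactly one element give a stable pair. -/
lemma stable_of_swap (ha : Typed s t σ a) (hc : Conn s σ a) {Z : Set V} {x y : V}
    (hx : x ∉ Z) (hy : y ∉ Z) (hxy : σ x = σ y) (hZx : DeadSet s t σ a (insert x Z))
    (hZy : DeadSet s t σ a (insert y Z)) (hr : (insert x Z).ncard = rank s t σ a) :
    Stable s t σ a x y := by
  refine ⟨hxy, fun v hv => ?_⟩
  have htx : σ (run a x v) = fin t (σ x) v := ha.run x v hv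
  obtain ⟨u, hu, hru⟩ := exists_rank ha hc (run a x v)
  rw [htx] at hu hru
  refine ⟨u, hu, ?_⟩
  have hval : Valid s t (σ x) (v ++ u) := by rw [valid_append]; exact ⟨hv, hu⟩
  have hkx : ∀ z ∈ insert x Z, σ z = σ x := by
    intro z hz
    by_cases h : z = x
    · rw [h]
    · exact (hZx z hz x (mem_insert _ _) h).1
  have hky : ∀ z ∈ insert y Z, σ z = σ x := by
    intro z hz
    by_cases h : z = y
    · rw [h, hxy]
    · rw [(hZy z hz y (mem_insert _ _) h).1, hxy]
  have hix := hZx.injOn hkx hval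
  have hiy := hZy.injOn hky hval
  have hcard : (insert y Z).ncard = rank s t σ a := by
    rw [← hr, Set.ncard_insert_of_notMem hx, Set.ncard_insert_of_notMem hy]
  have hsub : ∀ W : Set V, (∀ z ∈ W, σ z = σ x) →
      (fun p => run a p (v ++ u)) '' W ⊆ img σ a (fin t (σ x) v) u := by
    rintro W hW _ ⟨z, hz, rfl⟩
    refine ⟨run a z v, ?_, ?_⟩
    · simp only [mem_setOf_eq]
      rw [ha.run z v (by rw [hW z hz]; exact hv), hW z hz]
    · simp [run_append]
  have hex : (fun p => run a p (v ++ u)) '' (insert x Z) = img σ a (fin t (σ x) v) u := by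
    apply Set.eq_of_subset_of_ncard_le (hsub _ hkx) _ (Set.toFinite _)
    rw [Set.ncard_image_of_injOn hix, hr, hru]
  have hey : (fun p => run a p (v ++ u)) '' (insert y Z) = img σ a (fin t (σ x) v) u := by
    apply Set.eq_of_subset_of_ncard_le (hsub _ hky) _ (Set.toFinite _)
    rw [Set.ncard_image_of_injOn hiy, hcard, hru]
  have hmem : run a x (v ++ u) ∈ (fun p => run a p (v ++ u)) '' (insert y Z) := by
    rw [hey, ← hex]; exact ⟨x, mem_insert _ _, rfl⟩
  obtain ⟨z, hz, hzx⟩ := hmem
  rcases hz with rfl | hz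
  · exact hzx.symm
  · exfalso
    have := hix (mem_insert_of_mem _ hz) (mem_insert _ _) hzx
    exact hx (this ▸ hz)

/-- no nontrivial stable pair -/
def NoStable (s t : E → K) (σ : V → K) (a : V → E → V) : Prop :=
  ∀ x y, Stable s t σ a x y → x = y

/-- a pair contained in a minimal image -/
def PP (s t : E → K) (σ : V → K) (a : V → E → V) (x y : V) : Prop :=
  x ≠ y ∧ ∃ C, IsFC s t σ a C ∧ x ∈ C ∧ y ∈ C

lemma PP.symm {x y : V} (h : PP s t σ a x y) : PP s t σ a y x :=
  ⟨h.1.symm, h.2.imp fun _ hC => ⟨hC.1, hC.2.2, hC.2.1⟩⟩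

lemma PP.dead (ha : Typed s t σ a) {x y : V} (h : PP s t σ a x y) : Dead s t σ a x y := by
  obtain ⟨hne, C, hC, hx, hy⟩ := h
  exact hC.deadSet ha x hx y hy hne

lemma PP.letter (ha : Typed s t σ a) {x y : V} (h : PP s t σ a x y) {e : E} (he : s e = σ x) :
    PP s t σ a (a x e) (a y e) := by
  obtain ⟨hne, C, hC, hx, hy⟩ := h
  have hv : Valid s t (σ x) [e] := ⟨he, trivial⟩
  refine ⟨?_, _, hC.image ha hx hv, ⟨x, hx, rfl⟩, ⟨y, hy, rfl⟩⟩
  exact (hC.deadSet ha x hx y hy hne).2 [e] hv

/-- If a pair of a minimal image of `a` is either moved by each letter of `a'` as by some parallel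
letter of `a`, or is deadlocked for `a'`, then all pairs of minimal images of `a` are deadlocked
for `a'`. -/
lemma PP.dead_of_compat (ha : Typed s t σ a) {a' : V → E → V}
    (h : ∀ x y, PP s t σ a x y → (∀ e, s e = σ x → ∃ e', s e' = s e ∧ t e' = t e ∧
      a' x e = a x e' ∧ a' y e = a y e') ∨ Dead s t σ a' x y) :
    ∀ x y, PP s t σ a x y → Dead s t σ a' x y := by
  have key : ∀ (u : List E) (x y : V), PP s t σ a x y → Valid s t (σ x) u →
      run a' x u ≠ run a' y u := by
    intro u
    induction u with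
    | nil => intro x y hxy _; exact hxy.1
    | cons e u ih =>
      intro x y hxy hu
      obtain ⟨h1, h2⟩ := hu
      rcases h x y hxy with hh | hh
      · obtain ⟨e', he1, he2, hx, hy⟩ := hh e h1
        simp only [run_cons]
        rw [hx, hy]
        have hs : s e' = σ x := by rw [he1, h1]
        refine ih _ _ (hxy.letter ha hs) ?_
        rw [ha x e' hs, he2]; exact h2
      · exact hh.2 _ ⟨h1, h2⟩
  intro x y hxy
  refine ⟨?_, fun u hu => key u x y hxy hu⟩
  obtain ⟨_, C, hC, hx, hy⟩ := hxy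
  exact hC.type ha hx hy

/-- The main comparison lemma. -/
lemma exists_stable (ha : Typed s t σ a) {a' : V → E → V} (ha' : Typed s t σ a')
    (hc' : Conn s σ a')
    (h : ∀ x y, PP s t σ a x y → (∀ e, s e = σ x → ∃ e', s e' = s e ∧ t e' = t e ∧
      a' x e = a x e' ∧ a' y e = a y e') ∨ Dead s t σ a' x y)
    (hr : rank s t σ a' ≤ rank s t σ a) {C : Set V} (hC : IsFC s t σ a C) {x : V} (hx : x ∈ C)
    {e e' : E} (he : s e = σ x) (he' : s e' = s e) (hte : t e' = t e)
    (hz : ∀ z ∈ C, z ≠ x → a' z e = a z e') (hne : a' x e ≠ a x e') :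
    ¬ NoStable s t σ a' := by
  intro hno
  have hdead := PP.dead_of_compat ha h
  have hCd : DeadSet s t σ a' C := fun p hp q hq hpq => hdead p q ⟨hpq, C, hC, hp, hq⟩
  have hs' : s e' = σ x := by rw [he', he]
  -- the two images
  set Z : Set V := (fun z => a z e') '' (C \ {x}) with hZ
  have hZ' : Z = (fun z => a' z e) '' (C \ {x}) := by
    refine Set.image_congr fun z hz' => ?_
    exact (hz z hz'.1 hz'.2).symm
  have hCx : C = insert x (C \ {x}) := by
    rw [Set.insert_diff_singleton, Set.insert_eq_of_mem hx]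
  have himg : (fun z => run a z [e']) '' C = insert (a x e') Z := by
    conv_lhs => rw [hCx]
    rw [Set.image_insert_eq]; rfl
  have himg' : (fun z => run a' z [e]) '' C = insert (a' x e) Z := by
    conv_lhs => rw [hCx]
    rw [Set.image_insert_eq, hZ']; rfl
  have hFC : IsFC s t σ a (insert (a x e') Z) := by
    rw [← himg]; exact hC.image ha hx ⟨hs', trivial⟩
  have hd1 : DeadSet s t σ a' (insert (a x e') Z) := fun p hp q hq hpq =>
    hdead p q ⟨hpq, _, hFC, hp, hq⟩
  have hd2 : DeadSet s t σ a' (insert (a' x e) Z) := by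
    rw [← himg']
    rintro _ ⟨p, hp, rfl⟩ _ ⟨q, hq, rfl⟩ hpq
    have hpq' : p ≠ q := fun h => hpq (by rw [h])
    refine (hCd p hp q hq hpq').run ha' ?_
    refine ⟨?_, trivial⟩
    rw [he]; exact (hC.type ha hp hx).symm
  have hle : rank s t σ a' = rank s t σ a := by
    refine le_antisymm hr ?_
    obtain ⟨_, _, _, _, hcard⟩ := hC
    rw [← hcard]
    exact hCd.ncard_le ha' hc' hx
  have hn1 : a x e' ∉ Z := by
    rintro ⟨z, hz1, hz2⟩
    exact (hC.deadSet ha z hz1.1 x hx hz1.2).2 [e']
      ⟨by rw [hs']; exact (hC.type ha hz1.1 hx).symm, trivial⟩ hz2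
  have hn2 : a' x e ∉ Z := by
    rw [hZ']
    rintro ⟨z, hz1, hz2⟩
    exact (hCd z hz1.1 x hx hz1.2).2 [e]
      ⟨by rw [he]; exact (hC.type ha hz1.1 hx).symm, trivial⟩ hz2
  have hty : σ (a x e') = σ (a' x e) := by
    rw [ha x e' hs', ha' x e he, hte]
  have hst : Stable s t σ a' (a x e') (a' x e) := by
    refine stable_of_swap ha' hc' hn1 hn2 hty hd1 hd2 ?_
    rw [hle]
    obtain ⟨_, _, _, _, hcard⟩ := hFC
    exact hcard
  exact hne (hno _ _ hst).symm

/-- If a minimal image contains exactly one state on which two parallel letters differ, there is a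
stable pair. -/
lemma exists_partner (ha : Typed s t σ a) (hc : Conn s σ a) (hno : NoStable s t σ a) {e e' : E}
    (hs : s e' = s e) (hte : t e' = t e) {x : V} (hx : s e = σ x) (hne : a x e ≠ a x e') :
    ∃ y, PP s t σ a x y ∧ s e = σ y ∧ a y e ≠ a y e' := by
  by_contra hcon
  push Not at hcon
  obtain ⟨C, hC, hxC⟩ := exists_FC ha hc x
  refine exists_stable (a := a) (a' := a) ha ha hc (fun x y h => Or.inr (h.dead ha)) le_rfl hC hxC
    hx hs hte (fun z hz hzx => ?_) hne hno
  exact hcon z ⟨hzx.symm, C, hC, hxC, hz⟩ (hx.trans (hC.type ha hxC hz))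

end Rank

end Pool.Agent.H75.Bunchy
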