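import Pool.Agent.H75.Bunchy.Aut

/-!
# Swapping two parallel letters at a set of states
-/

set_option autoImplicit false
set_option linter.unusedSectionVars false
set_option linter.deprecated false

namespace Pool.Agent.H75.Bunchy

open Set
open scoped Classical

/-- swap the letters `e1`, `e2` at the states of `δ` -/
noncomputable def flip {V E : Type*} (e1 e2 : E) (δ : Set V) (a : V → E → V) : V → E → V :=
  fun p e => if p ∈ δ then a p (Equiv.swap e1 e2 e) else a p e

section
variable {V K E : Type*} {s t : E → K} {σ : V → K} {a : V → E → V} {e1 e2 : E}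

lemma flip_of_mem {δ : Set V} {p : V} (hp : p ∈ δ) (e : E) :
    flip e1 e2 δ a p e = a p (Equiv.swap e1 e2 e) := by
  simp only [flip, hp, if_true]

lemma flip_of_notMem {δ : Set V} {p : V} (hp : p ∉ δ) (e : E) :
    flip e1 e2 δ a p e = a p e := by
  simp [flip, hp]

lemma flip_left {δ : Set V} {p : V} (hp : p ∈ δ) : flip e1 e2 δ a p e1 = a p e2 := by
  simp [flip, hp]

lemma flip_right {δ : Set V} {p : V} (hp : p ∈ δ) : flip e1 e2 δ a p e2 = a p e1 := by
  simp [flip, hp]

lemma flip_other {δ : Set V} {p : V} {e : E} (h1 : e ≠ e1) (h2 : e ≠ e2) :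
    flip e1 e2 δ a p e = a p e := by
  simp only [flip]
  split_ifs
  · rw [Equiv.swap_apply_of_ne_of_ne h1 h2]
  · rfl

lemma flip_flip (δ δ' : Set V) : flip e1 e2 δ' (flip e1 e2 δ a) = flip e1 e2 (symmDiff δ δ') a := by
  funext p e
  by_cases h : p ∈ δ <;> by_cases h' : p ∈ δ'
  · have : p ∉ symmDiff δ δ' := by simp [Set.mem_symmDiff, h, h']
    simp [flip, h, h', this]
  · have : p ∈ symmDiff δ δ' := by simp [Set.mem_symmDiff, h, h']
    simp [flip, h, h', this]
  · have : p ∈ symmDiff δ δ' := by simp [Set.mem_symmDiff, h, h']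
    simp [flip, h, h', this]
  · have : p ∉ symmDiff δ δ' := by simp [Set.mem_symmDiff, h, h']
    simp [flip, h, h', this]

lemma flip_empty : flip e1 e2 ∅ a = a := by
  funext p e; simp [flip]

/-- the states at which the letters differ -/
def Diff (s : E → K) (σ : V → K) (a : V → E → V) (e1 e2 : E) : Set V :=
  {p | s e1 = σ p ∧ a p e1 ≠ a p e2}

lemma diff_flip (δ : Set V) : Diff s σ (flip e1 e2 δ a) e1 e2 = Diff s σ a e1 e2 := by
  ext p
  by_cases h : p ∈ δ
  · simp [Diff, flip_left h, flip_right h, ne_comm]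
  · simp [Diff, flip_of_notMem h]

variable (hs : s e1 = s e2) (ht : t e1 = t e2)
include hs

lemma s_swap (e : E) : s (Equiv.swap e1 e2 e) = s e := by
  by_cases h1 : e = e1
  · subst h1; simp [hs]
  · by_cases h2 : e = e2
    · subst h2; simp [hs]
    · rw [Equiv.swap_apply_of_ne_of_ne h1 h2]

lemma step_flip (δ : Set V) (p q : V) : Step s σ (flip e1 e2 δ a) p q ↔ Step s σ a p q := by
  by_cases h : p ∈ δ
  · constructor
    · rintro ⟨e, he, hq⟩
      exact ⟨_, by rw [s_swap hs]; exact he, by rw [← hq, flip_of_mem h]⟩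
    · rintro ⟨e, he, hq⟩
      refine ⟨Equiv.swap e1 e2 e, by rw [s_swap hs]; exact he, ?_⟩
      rw [flip_of_mem h]
      rw [← hq, Equiv.swap_apply_self]
  · constructor
    · rintro ⟨e, he, hq⟩
      exact ⟨e, he, by rw [← hq, flip_of_notMem h]⟩
    · rintro ⟨e, he, hq⟩
      exact ⟨e, he, by rw [flip_of_notMem h, hq]⟩

lemma Conn.flip (hc : Conn s σ a) (δ : Set V) : Conn s σ (flip e1 e2 δ a) := by
  intro p q
  have : Step s σ (Bunchy.flip e1 e2 δ a) = Step s σ a := by
    funext p q; exact propext (step_flip hs δ p q)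
  rw [this]; exact hc p q

include ht

lemma t_swap (e : E) : t (Equiv.swap e1 e2 e) = t e := by
  by_cases h1 : e = e1
  · subst h1; simp [ht]
  · by_cases h2 : e = e2
    · subst h2; simp [ht]
    · rw [Equiv.swap_apply_of_ne_of_ne h1 h2]

lemma Typed.flip (ha : Typed s t σ a) (δ : Set V) : Typed s t σ (flip e1 e2 δ a) := by
  intro p e he
  by_cases h : p ∈ δ
  · rw [flip_of_mem h, ha _ _ (by rw [s_swap hs]; exact he), t_swap hs ht]
  · rw [flip_of_notMem h]; exact ha _ _ he

/-- compatibility of pairs with a swap -/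
lemma compat_flip {δ : Set V} {x y : V} (hxy : σ x = σ y)
    (h1 : x ∈ δ → y ∉ δ → x ∈ Diff s σ a e1 e2 → y ∉ Diff s σ a e1 e2)
    (h2 : y ∈ δ → x ∉ δ → y ∈ Diff s σ a e1 e2 → x ∉ Diff s σ a e1 e2) (e : E) (he : s e = σ x) :
    ∃ e', s e' = s e ∧ t e' = t e ∧ flip e1 e2 δ a x e = a x e' ∧ flip e1 e2 δ a y e = a y e' := by
  by_cases hx : x ∈ δ <;> by_cases hy : y ∈ δ
  · exact ⟨_, s_swap hs e, t_swap hs ht e, flip_of_mem hx e, flip_of_mem hy e⟩
  · by_cases he12 : e = e1 ∨ e = e2
    · have hse : s e1 = σ x := by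
        rcases he12 with rfl | rfl
        · exact he
        · rw [hs]; exact he
      by_cases hxd : x ∈ Diff s σ a e1 e2
      · have hyd := h1 hx hy hxd
        have hy12 : a y e1 = a y e2 := by
          by_contra hcon; exact hyd ⟨by rw [hse, hxy], hcon⟩
        refine ⟨_, s_swap hs e, t_swap hs ht e, flip_of_mem hx e, ?_⟩
        rw [flip_of_notMem hy]
        rcases he12 with rfl | rfl
        · simp [hy12]
        · simp [hy12]
      · have hx12 : a x e1 = a x e2 := by
          by_contra hcon; exact hxd ⟨hse, hcon⟩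
        refine ⟨e, rfl, rfl, ?_, flip_of_notMem hy e⟩
        rw [flip_of_mem hx]
        rcases he12 with rfl | rfl
        · simp [hx12]
        · simp [hx12]
    · push Not at he12
      exact ⟨e, rfl, rfl, flip_other he12.1 he12.2, flip_other he12.1 he12.2⟩
  · by_cases he12 : e = e1 ∨ e = e2
    · have hse : s e1 = σ x := by
        rcases he12 with rfl | rfl
        · exact he
        · rw [hs]; exact he
      by_cases hyd : y ∈ Diff s σ a e1 e2
      · have hxd := h2 hy hx hyd
        have hx12 : a x e1 = a x e2 := by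
          by_contra hcon; exact hxd ⟨hse, hcon⟩
        refine ⟨_, s_swap hs e, t_swap hs ht e, ?_, flip_of_mem hy e⟩
        rw [flip_of_notMem hx]
        rcases he12 with rfl | rfl
        · simp [hx12]
        · simp [hx12]
      · have hy12 : a y e1 = a y e2 := by
          by_contra hcon; exact hyd ⟨by rw [hse, hxy], hcon⟩
        refine ⟨e, rfl, rfl, flip_of_notMem hx e, ?_⟩
        rw [flip_of_mem hy]
        rcases he12 with rfl | rfl
        · simp [hy12]
        · simp [hy12]
    · push Not at he12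
      exact ⟨e, rfl, rfl, flip_other he12.1 he12.2, flip_other he12.1 he12.2⟩
  · exact ⟨e, rfl, rfl, flip_of_notMem hx e, flip_of_notMem hy e⟩

variable [Finite V]

lemma PP.type (ha : Typed s t σ a) {x y : V} (h : PP s t σ a x y) : σ x = σ y := (h.dead ha).1

/-- swapping at a single state `x` -/
lemma flip_one (ha : Typed s t σ a) (hc : Conn s σ a) {x : V} (hx : x ∈ Diff s σ a e1 e2)
    (hno : NoStable s t σ (flip e1 e2 {x} a))
    (hr : rank s t σ (flip e1 e2 {x} a) ≤ rank s t σ a) :
    ∃ y ∈ Diff s σ a e1 e2, PP s t σ a x y ∧ ¬ Dead s t σ (flip e1 e2 {x} a) x y := by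
  by_contra hcon
  push Not at hcon
  obtain ⟨C, hC, hxC⟩ := exists_FC ha hc x
  refine exists_stable (a := a) (a' := flip e1 e2 {x} a) (e := e1) (e' := e1) ha
    (ha.flip hs ht _) (hc.flip hs _) ?_ hr hC hxC hx.1 rfl rfl ?_ ?_ hno
  · intro p q hpq
    by_cases hcut : (p = x ∧ q ∈ Diff s σ a e1 e2) ∨ (q = x ∧ p ∈ Diff s σ a e1 e2)
    · right
      rcases hcut with ⟨rfl, hq⟩ | ⟨rfl, hp⟩
      · exact hcon q hq hpq
      · exact (hcon p hp hpq.symm).symm
    · left
      push Not at hcut
      refine compat_flip hs ht (hpq.dead ha).1 ?_ ?_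
      · intro h1 h2 h3
        exact hcut.1 h1
      · intro h1 h2 h3
        exact hcut.2 h1
  · intro z _ hzx
    exact flip_of_notMem (by simpa using hzx) _
  · rw [flip_left (mem_singleton x)]
    exact fun h => hx.2 h.symm

/-- swapping at all states of `Diff` but `y` -/
lemma flip_compl (ha : Typed s t σ a) (hc : Conn s σ a) {y : V} (hy : y ∈ Diff s σ a e1 e2)
    {δ : Set V} (hyδ : y ∉ δ) (hδ : Diff s σ a e1 e2 ⊆ insert y δ)
    (hno : NoStable s t σ (flip e1 e2 δ a))
    (hr : rank s t σ (flip e1 e2 δ a) ≤ rank s t σ a) :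
    ∃ w ∈ Diff s σ a e1 e2, w ∈ δ ∧ PP s t σ a y w ∧ ¬ Dead s t σ (flip e1 e2 δ a) y w := by
  by_contra hcon
  push Not at hcon
  obtain ⟨C, hC, hyC⟩ := exists_FC ha hc y
  refine exists_stable (a := a) (a' := flip e1 e2 δ a) (e := e1) (e' := e2) ha
    (ha.flip hs ht _) (hc.flip hs _) ?_ hr hC hyC hy.1 hs.symm ht.symm ?_ ?_ hno
  · intro p q hpq
    by_cases hp : p ∈ δ <;> by_cases hq : q ∈ δ
    · exact Or.inl (compat_flip hs ht (hpq.dead ha).1 (fun _ h => absurd hq h)
        (fun _ h => absurd hp h))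
    · by_cases hqd : q ∈ Diff s σ a e1 e2
      · have hqy : q = y := by
          rcases hδ hqd with h | h
          · exact h
          · exact absurd h hq
        by_cases hpd : p ∈ Diff s σ a e1 e2
        · right
          subst hqy
          exact (hcon p hpd hp hpq.symm).symm
        · exact Or.inl (compat_flip hs ht (hpq.dead ha).1 (fun _ _ h => absurd h hpd)
            (fun h => absurd h hq))
      · exact Or.inl (compat_flip hs ht (hpq.dead ha).1 (fun _ _ _ => hqd)
            (fun h => absurd h hq))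
    · by_cases hpd : p ∈ Diff s σ a e1 e2
      · have hpy : p = y := by
          rcases hδ hpd with h | h
          · exact h
          · exact absurd h hp
        by_cases hqd : q ∈ Diff s σ a e1 e2
        · right
          subst hpy
          exact hcon q hqd hq hpq
        · exact Or.inl (compat_flip hs ht (hpq.dead ha).1 (fun h => absurd h hp)
            (fun _ _ h => absurd h hqd))
      · exact Or.inl (compat_flip hs ht (hpq.dead ha).1 (fun h => absurd h hp)
            (fun _ _ _ => hpd))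
    · exact Or.inl (compat_flip hs ht (hpq.dead ha).1 (fun h => absurd h hp)
            (fun h => absurd h hq))
  · intro z hz hzy
    by_cases hzδ : z ∈ δ
    · exact flip_left hzδ
    · rw [flip_of_notMem hzδ]
      by_contra hne
      have hzd : z ∈ Diff s σ a e1 e2 := ⟨hy.1.trans (hC.type ha hyC hz), hne⟩
      rcases hδ hzd with h | h
      · exact hzy h
      · exact hzδ h
  · rw [flip_of_notMem hyδ]
    exact hy.2

/-- a partner in `Diff` -/
lemma partner (ha : Typed s t σ a) (hc : Conn s σ a) (hno : NoStable s t σ a) {x : V}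
    (hx : x ∈ Diff s σ a e1 e2) : ∃ y ∈ Diff s σ a e1 e2, PP s t σ a x y := by
  obtain ⟨y, h1, h2, h3⟩ := exists_partner ha hc hno hs.symm ht.symm hx.1 hx.2
  exact ⟨y, ⟨h2, h3⟩, h1⟩

/-- At most three states at which two parallel letters differ. -/
theorem three (ha : Typed s t σ a) (hc : Conn s σ a) (hne : (Diff s σ a e1 e2).Nonempty)
    (hcard : (Diff s σ a e1 e2).ncard ≤ 3) : ∃ δ : Set V, ¬ NoStable s t σ (flip e1 e2 δ a) := by
  by_contra hcon
  push Not at hcon
  -- choose the maximal rank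
  obtain ⟨δ0, hδ0⟩ := Finite.exists_max (fun δ : Set V => rank s t σ (flip e1 e2 δ a))
  set b := flip e1 e2 δ0 a with hb
  have hbd : Diff s σ b e1 e2 = Diff s σ a e1 e2 := diff_flip δ0
  have hbt : Typed s t σ b := ha.flip hs ht δ0
  have hbc : Conn s σ b := hc.flip hs δ0
  have hN : ∀ δ : Set V, NoStable s t σ (flip e1 e2 δ b) := by
    intro δ; rw [hb, flip_flip]; exact hcon _
  have hR : ∀ δ : Set V, rank s t σ (flip e1 e2 δ b) ≤ rank s t σ b := by
    intro δ; rw [hb, flip_flip]; exact hδ0 _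
  rw [← hbd] at hne hcard
  -- choose the state with minimal rank after the swap
  obtain ⟨x, hx, hmin⟩ := Set.exists_min_image (Diff s σ b e1 e2)
    (fun x => rank s t σ (flip e1 e2 {x} b)) (Set.toFinite _) hne
  obtain ⟨y, hy, hxy, hnd⟩ := flip_one hs ht hbt hbc hx (hN {x}) (hR {x})
  have hdx : Diff s σ (flip e1 e2 {x} b) e1 e2 = Diff s σ b e1 e2 := diff_flip {x}
  have htx : Typed s t σ (flip e1 e2 {x} b) := hbt.flip hs ht _
  have hcx : Conn s σ (flip e1 e2 {x} b) := hbc.flip hs _
  obtain ⟨z, hz, hxz⟩ := partner hs ht htx hcx (hN {x}) (x := x) (by rw [hdx]; exact hx)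
  obtain ⟨z', hz', hyz'⟩ := partner hs ht htx hcx (hN {x}) (x := y) (by rw [hdx]; exact hy)
  rw [hdx] at hz hz'
  have hxz' := hxz.dead htx
  have hyz'' := hyz'.dead htx
  have hzy : z ≠ y := fun h => hnd (h ▸ hxz')
  have hz'x : z' ≠ x := fun h => hnd (by rw [h] at hyz''; exact hyz''.symm)
  have hzx : z ≠ x := hxz.1.symm
  have hz'y : z' ≠ y := hyz'.1.symm
  have hyx : y ≠ x := hxy.1.symm
  -- Diff = {x, y, z}
  have hDeq : Diff s σ b e1 e2 = {x, y, z} := by
    symm
    apply Set.eq_of_subset_of_ncard_le _ _ (Set.toFinite _)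
    · rintro w (rfl | rfl | rfl)
      · exact hx
      · exact hy
      · exact hz
    · refine hcard.trans (le_of_eq ?_)
      rw [Set.ncard_eq_three.mpr ⟨x, y, z, hyx.symm, hzx.symm, hzy.symm, rfl⟩]
  have hzz' : z' = z := by
    have : z' ∈ ({x, y, z} : Set V) := hDeq ▸ hz'
    rcases this with h | h | h
    · exact absurd h hz'x
    · exact absurd h hz'y
    · exact h
  subst hzz'
  -- compare the swaps at `x` and at `y`
  have hdy : Diff s σ (flip e1 e2 {y} b) e1 e2 = Diff s σ b e1 e2 := diff_flip {y}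
  have hff : flip e1 e2 {x, y} (flip e1 e2 {y} b) = flip e1 e2 {x} b := by
    rw [flip_flip]
    congr 1
    ext w
    simp only [Set.mem_symmDiff, mem_singleton_iff, mem_insert_iff]
    constructor
    · rintro (⟨h1, h2⟩ | ⟨h1, h2⟩)
      · exact absurd (Or.inr h1) h2
      · rcases h1 with h | h
        · exact h
        · exact absurd h h2
    · rintro rfl
      exact Or.inr ⟨Or.inl rfl, hyx.symm⟩
  obtain ⟨w, _, hw, _, hwd⟩ := flip_compl hs ht (hbt.flip hs ht {y}) (hbc.flip hs {y})
    (y := z') (δ := {x, y}) (by rw [hdy]; exact hz)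
    (by
      intro h
      rcases h with h | h
      · exact hzx h
      · exact hzy h)
    (by rw [hdy, hDeq]; rintro w (rfl | rfl | rfl) <;> simp)
    (by rw [hff]; exact hN {x}) (by rw [hff]; exact hmin y hy)
  rw [hff] at hwd
  rcases hw with h | h
  · rw [h] at hwd; exact hwd hxz'.symm
  · rw [mem_singleton_iff] at h
    rw [h] at hwd; exact hwd hyz''.symm

/-- A state of `Diff` that can be merged with all the other ones. -/
theorem universal (ha : Typed s t σ a) (hc : Conn s σ a) {x : V} (hx : x ∈ Diff s σ a e1 e2)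
    (h : ∀ y ∈ Diff s σ a e1 e2, y ≠ x → ¬ Dead s t σ a x y) : ¬ NoStable s t σ a := by
  intro hno
  obtain ⟨y, hy, hxy⟩ := partner hs ht ha hc hno hx
  exact h y hy hxy.1.symm (hxy.dead ha)

/-- All pairs of `Diff` which do not contain `z` can be merged. -/
theorem allButOne (ha : Typed s t σ a) (hc : Conn s σ a) (hne : (Diff s σ a e1 e2).Nonempty) (z : V)
    (h : ∀ x ∈ Diff s σ a e1 e2, ∀ y ∈ Diff s σ a e1 e2, x ≠ z → y ≠ z → x ≠ y →
      ¬ Dead s t σ a x y ∧ ¬ Dead s t σ (flip e1 e2 {z} a) x y) :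
    ∃ δ : Set V, ¬ NoStable s t σ (flip e1 e2 δ a) := by
  by_contra hcon
  push Not at hcon
  have hN0 : NoStable s t σ a := by simpa [flip_empty] using hcon ∅
  have hN1 : NoStable s t σ (flip e1 e2 {z} a) := hcon {z}
  have ht1 : Typed s t σ (flip e1 e2 {z} a) := ha.flip hs ht _
  have hc1 : Conn s σ (flip e1 e2 {z} a) := hc.flip hs _
  have hd1 : Diff s σ (flip e1 e2 {z} a) e1 e2 = Diff s σ a e1 e2 := diff_flip {z}
  have hP0 : ∀ x ∈ Diff s σ a e1 e2, x ≠ z → z ∈ Diff s σ a e1 e2 ∧ PP s t σ a x z := by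
    intro x hx hxz
    obtain ⟨y, hy, hxy⟩ := partner hs ht ha hc hN0 hx
    by_cases hyz : y = z
    · subst hyz; exact ⟨hy, hxy⟩
    · exact absurd (hxy.dead ha) (h x hx y hy hxz hyz hxy.1).1
  have hP1 : ∀ x ∈ Diff s σ a e1 e2, x ≠ z → PP s t σ (flip e1 e2 {z} a) x z := by
    intro x hx hxz
    obtain ⟨y, hy, hxy⟩ := partner hs ht ht1 hc1 hN1 (x := x) (by rw [hd1]; exact hx)
    rw [hd1] at hy
    by_cases hyz : y = z
    · subst hyz; exact hxy
    · exact absurd (hxy.dead ht1) (h x hx y hy hxz hyz hxy.1).2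
  have hz : z ∈ Diff s σ a e1 e2 := by
    obtain ⟨x, hx⟩ := hne
    by_cases hxz : x = z
    · subst hxz; exact hx
    · exact (hP0 x hx hxz).1
  rcases le_total (rank s t σ (flip e1 e2 {z} a)) (rank s t σ a) with hr | hr
  · obtain ⟨y, hy, hzy, hnd⟩ := flip_one hs ht ha hc hz hN1 hr
    exact hnd ((hP1 y hy hzy.1.symm).dead ht1).symm
  · have hff : flip e1 e2 {z} (flip e1 e2 {z} a) = a := by
      rw [flip_flip, symmDiff_self]; exact flip_empty
    obtain ⟨y, hy, hzy, hnd⟩ := flip_one hs ht ht1 hc1 (x := z) (by rw [hd1]; exact hz)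
      (by rw [hff]; exact hN0) (by rw [hff]; exact hr)
    rw [hff] at hnd
    rw [hd1] at hy
    exact hnd ((hP0 y hy hzy.1.symm).2.dead ha).symm

end

end Pool.Agent.H75.Bunchy
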