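import Mathlib

/-!
# Finite directed graphs, right resolvers, synchronizing factors and bunchy graphs

Definitions of `MP_644d19_co` (the bunchy factor conjecture).
-/

set_option autoImplicit false

namespace Pool.Agent.H75.Bunchy

/-- A finite directed graph; loops and multiple edges are allowed. -/
structure Graph where
  /-- vertices -/
  V : Type
  /-- edges -/
  E : Type
  [finV : Finite V]
  [finE : Finite E]
  /-- initial vertex of an edge -/
  src : E → V
  /-- terminal vertex of an edge -/
  tgt : E → V

attribute [instance] Graph.finV Graph.finE

namespace Graph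

/-- The followers of `I`: terminal vertices of the edges starting at `I`. -/
def Followers (G : Graph) (I : G.V) : Set G.V := {J | ∃ f, G.src f = I ∧ G.tgt f = J}

/-- Every vertex reaches every vertex by a directed path. -/
def StronglyConnected (G : Graph) : Prop :=
  ∀ I J, Relation.ReflTransGen (fun P Q => Q ∈ G.Followers P) I J

/-- `w` is (the edge list of) a path in `G` starting at the given vertex. -/
def IsPath (G : Graph) : G.V → List G.E → Prop
  | _, [] => True
  | I, f :: w => G.src f = I ∧ G.IsPath (G.tgt f) w

/-- the number of edges from `I` to `J` -/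
noncomputable def mult (G : Graph) (I J : G.V) : ℕ := {f | G.src f = I ∧ G.tgt f = J}.ncard

end Graph

/-- A right resolver `Φ : G → H`: a surjective graph homomorphism (vertex map `v = ∂Φ`, edge map
`e = Φ`) that restricts, for every vertex `I` of `G`, to a bijection from the edges starting at
`I` onto the edges starting at `∂Φ(I)`. -/
structure RightResolver (G H : Graph) where
  /-- the vertex map `∂Φ` -/
  v : G.V → H.V
  /-- the edge map `Φ` -/
  e : G.E → H.E
  src_comm : ∀ f, H.src (e f) = v (G.src f)
  tgt_comm : ∀ f, H.tgt (e f) = v (G.tgt f)
  v_surj : Function.Surjective v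
  e_surj : Function.Surjective e
  bij : ∀ I, Set.BijOn e {f | G.src f = I} {g | H.src g = v I}

/-- `Φ.Leads I w K`: the path of `G` that starts at `I` and is mapped by `Φ` to the path `w` of
`H` ends at `K`, that is, `K = I ·_Φ w`. -/
inductive RightResolver.Leads {G H : Graph} (Φ : RightResolver G H) :
    G.V → List H.E → G.V → Prop
  | nil (I : G.V) : Leads Φ I [] I
  | cons (f : G.E) (w : List H.E) (K : G.V) (h : Leads Φ (G.tgt f) w K) :
      Leads Φ (G.src f) (Φ.e f :: w) K

/-- `Φ` is synchronizing: for every vertex `J` of `H` some path `w` of `H` starting at `J` has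
`|{I ·_Φ w : ∂Φ(I) = J}| = 1`. -/
def RightResolver.Synchronizing {G H : Graph} (Φ : RightResolver G H) : Prop :=
  ∀ J : H.V, ∃ w : List H.E, H.IsPath J w ∧ {K | ∃ I, Φ.v I = J ∧ Φ.Leads I w K}.ncard = 1

/-- `M` is minimal for `≤_R`: every right resolver from `M` is an isomorphism. -/
def Minimal (M : Graph) : Prop :=
  ∀ (N : Graph) (Ψ : RightResolver M N), Function.Bijective Ψ.v ∧ Function.Bijective Ψ.e

/-- `G` is bunchy: for a (by the theorem of Ashley, Marcus and Tuncel, the unique) right resolver
vertex map onto the `≤_R`-minimal graph `M = M(G)`, the restriction to the followers of each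
vertex `I` is a bijection onto the followers of the image of `I`. -/
def IsBunchy (G : Graph) : Prop :=
  ∃ M : Graph, Minimal M ∧ ∃ Φ : RightResolver G M,
    ∀ I : G.V, Set.BijOn Φ.v (G.Followers I) (M.Followers (Φ.v I))

/-- `J'` is a follower of `I'` over `J`. -/
def FollowersOver {G H : Graph} (v : G.V → H.V) (I' : G.V) (J : H.V) : Set G.V :=
  {J' ∈ G.Followers I' | v J' = J}

/-- The full vertices over `I` for the pair `(I, J)`: the vertices over `I` whose edges to
vertices over `J` have pairwise distinct terminal vertices, i.e. the number of followers over `J`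
is the number `m` of edges from `I` to `J`. -/
def Full {G H : Graph} (v : G.V → H.V) (I J : H.V) : Set G.V :=
  {I' | v I' = I ∧ (FollowersOver v I' J).ncard = H.mult I J}

/-- `Along v q β t`: some path of `G` from `q` to `t` successively visits vertices over the
members of the list `β` (after `q`). -/
def Along {G H : Graph} (v : G.V → H.V) : G.V → List H.V → G.V → Prop
  | q, [], t => q = t
  | q, K :: β, t => ∃ q' ∈ FollowersOver v q K, Along v q' β t

end Pool.Agent.H75.Bunchy
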