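import Pool.Agent.H75.Bunchy.Graph
import Pool.Agent.H75.Bunchy.Flip

/-!
# Right resolvers as typed automata, recolouring, composition
-/

set_option autoImplicit false
set_option linter.unusedSectionVars false
set_option linter.deprecated false

namespace Pool.Agent.H75.Bunchy

open Set
open scoped Classical

lemma isPath_iff (H : Graph) (J : H.V) (w : List H.E) :
    H.IsPath J w ↔ Valid H.src H.tgt J w := by
  induction w generalizing J with
  | nil => simp [Graph.IsPath]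
  | cons e w ih => simp [Graph.IsPath, ih]

namespace RightResolver
variable {G H L : Graph}

/-- a right resolver from its vertex surjectivity and bijectivity on edges -/
def mk' (v : G.V → H.V) (e : G.E → H.E) (hs : ∀ f, H.src (e f) = v (G.src f))
    (ht : ∀ f, H.tgt (e f) = v (G.tgt f)) (hv : Function.Surjective v)
    (hb : ∀ I, Set.BijOn e {f | G.src f = I} {g | H.src g = v I}) : RightResolver G H where
  v := v
  e := e
  src_comm := hs
  tgt_comm := ht
  v_surj := hv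
  e_surj := by
    intro g
    obtain ⟨I, hI⟩ := hv (H.src g)
    obtain ⟨f, _, hf⟩ := (hb I).surjOn hI.symm
    exact ⟨f, hf⟩
  bij := hb

variable (Φ : RightResolver G H)

lemma exists_edge (p : G.V) {g : H.E} (hg : H.src g = Φ.v p) : ∃ f, G.src f = p ∧ Φ.e f = g := by
  obtain ⟨f, hf1, hf2⟩ := (Φ.bij p).surjOn hg
  exact ⟨f, hf1, hf2⟩

lemma edge_unique {f f' : G.E} (h : G.src f = G.src f') (h' : Φ.e f = Φ.e f') : f = f' :=
  (Φ.bij (G.src f')).injOn h rfl h'

/-- the action of the edges of `H` on the vertices of `G` -/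
noncomputable def act (p : G.V) (g : H.E) : G.V :=
  if h : ∃ f, G.src f = p ∧ Φ.e f = g then G.tgt h.choose else p

lemma act_eq (f : G.E) : Φ.act (G.src f) (Φ.e f) = G.tgt f := by
  have h : ∃ f', G.src f' = G.src f ∧ Φ.e f' = Φ.e f := ⟨f, rfl, rfl⟩
  rw [act, dif_pos h]
  congr 1
  exact Φ.edge_unique h.choose_spec.1 h.choose_spec.2

lemma act_invalid {p : G.V} {g : H.E} (hg : H.src g ≠ Φ.v p) : Φ.act p g = p := by
  rw [act, dif_neg]
  rintro ⟨f, rfl, rfl⟩
  exact hg (Φ.src_comm f)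

lemma act_typed : Typed H.src H.tgt Φ.v Φ.act := by
  intro p g hg
  obtain ⟨f, rfl, rfl⟩ := Φ.exists_edge p hg
  rw [Φ.act_eq, Φ.tgt_comm]

lemma step_iff (p q : G.V) : Step H.src Φ.v Φ.act p q ↔ q ∈ G.Followers p := by
  constructor
  · rintro ⟨g, hg, hq⟩
    obtain ⟨f, rfl, rfl⟩ := Φ.exists_edge p hg
    exact ⟨f, rfl, by rw [← hq, Φ.act_eq]⟩
  · rintro ⟨f, rfl, rfl⟩
    exact ⟨Φ.e f, Φ.src_comm f, Φ.act_eq f⟩

lemma conn (hG : G.StronglyConnected) : Conn H.src Φ.v Φ.act := by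
  intro p q
  have : Step H.src Φ.v Φ.act = fun P Q => Q ∈ G.Followers P := by
    funext p q; exact propext (Φ.step_iff p q)
  rw [this]; exact hG p q

lemma leads_iff (I : G.V) (w : List H.E) (K : G.V) :
    Φ.Leads I w K ↔ Valid H.src H.tgt (Φ.v I) w ∧ run Φ.act I w = K := by
  constructor
  · intro h
    induction h with
    | nil I => exact ⟨trivial, rfl⟩
    | cons f w K _ ih =>
      obtain ⟨h1, h2⟩ := ih
      refine ⟨⟨Φ.src_comm f, ?_⟩, ?_⟩
      · rw [Φ.tgt_comm]; exact h1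
      · rw [run_cons, Φ.act_eq]; exact h2
  · rintro ⟨h1, h2⟩
    induction w generalizing I with
    | nil => rw [← h2]; exact Leads.nil I
    | cons g w ih =>
      obtain ⟨hg, hw⟩ := h1
      obtain ⟨f, rfl, rfl⟩ := Φ.exists_edge I hg
      rw [run_cons, Φ.act_eq] at h2
      refine Leads.cons f w K (ih _ ?_ h2)
      rw [← Φ.tgt_comm]; exact hw

/-- followers over `J` are the images under the edges from the type to `J` -/
lemma mem_followersOver (p : G.V) (J : H.V) (q : G.V) :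
    q ∈ FollowersOver Φ.v p J ↔ ∃ g, H.src g = Φ.v p ∧ H.tgt g = J ∧ Φ.act p g = q := by
  constructor
  · rintro ⟨⟨f, rfl, rfl⟩, h⟩
    exact ⟨Φ.e f, Φ.src_comm f, by rw [Φ.tgt_comm]; exact h, Φ.act_eq f⟩
  · rintro ⟨g, hg, hJ, hq⟩
    obtain ⟨f, rfl, rfl⟩ := Φ.exists_edge p hg
    rw [Φ.act_eq] at hq
    refine ⟨⟨f, rfl, hq⟩, ?_⟩
    rw [← hq, ← Φ.tgt_comm]; exact hJ

lemma followersOver_eq (p : G.V) (J : H.V) :
    FollowersOver Φ.v p J = Φ.act p '' {g | H.src g = Φ.v p ∧ H.tgt g = J} := by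
  ext q
  rw [mem_followersOver]
  constructor
  · rintro ⟨g, h1, h2, h3⟩; exact ⟨g, ⟨h1, h2⟩, h3⟩
  · rintro ⟨g, ⟨h1, h2⟩, h3⟩; exact ⟨g, h1, h2, h3⟩

lemma ncard_followersOver_le (p : G.V) (J : H.V) :
    (FollowersOver Φ.v p J).ncard ≤ H.mult (Φ.v p) J := by
  rw [followersOver_eq]
  exact Set.ncard_image_le (Set.toFinite _)

lemma mem_full_iff (I J : H.V) (p : G.V) : p ∈ Full Φ.v I J ↔
    Φ.v p = I ∧ Set.InjOn (Φ.act p) {g | H.src g = I ∧ H.tgt g = J} := by
  constructor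
  · rintro ⟨rfl, h⟩
    refine ⟨rfl, ?_⟩
    rw [followersOver_eq] at h
    exact Set.injOn_of_ncard_image_eq h (Set.toFinite _)
  · rintro ⟨rfl, h⟩
    refine ⟨rfl, ?_⟩
    rw [followersOver_eq]
    exact Set.ncard_image_of_injOn h

/-- composition of right resolvers -/
def comp (Θ : RightResolver H L) (Φ : RightResolver G H) : RightResolver G L :=
  mk' (fun p => Θ.v (Φ.v p)) (fun f => Θ.e (Φ.e f))
    (fun f => by rw [Θ.src_comm, Φ.src_comm]) (fun f => by rw [Θ.tgt_comm, Φ.tgt_comm])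
    (Θ.v_surj.comp Φ.v_surj) (fun I => (Θ.bij (Φ.v I)).comp (Φ.bij I))

@[simp] lemma comp_v (Θ : RightResolver H L) (p : G.V) : (comp Θ Φ).v p = Θ.v (Φ.v p) := rfl
@[simp] lemma comp_e (Θ : RightResolver H L) (f : G.E) : (comp Θ Φ).e f = Θ.e (Φ.e f) := rfl

/-- the identity -/
def id (G : Graph) : RightResolver G G :=
  mk' (fun p => p) (fun f => f) (fun _ => rfl) (fun _ => rfl) Function.surjective_id
    (fun _ => Set.bijOn_id _)

/-- recolouring by permutations of parallel edges -/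
def recolor (π : G.V → Equiv.Perm H.E) (hs : ∀ p g, H.src (π p g) = H.src g)
    (ht : ∀ p g, H.tgt (π p g) = H.tgt g) : RightResolver G H :=
  mk' Φ.v (fun f => π (G.src f) (Φ.e f)) (fun f => by rw [hs, Φ.src_comm])
    (fun f => by rw [ht, Φ.tgt_comm]) Φ.v_surj (by
      intro I
      refine ⟨?_, ?_, ?_⟩
      · intro f hf
        simp only [mem_setOf_eq] at hf ⊢
        rw [hs, Φ.src_comm, hf]
      · intro f hf f' hf' h
        simp only [mem_setOf_eq] at hf hf'
        simp only [hf, hf'] at h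
        exact Φ.edge_unique (by rw [hf, hf']) ((π I).injective h)
      · intro g hg
        simp only [mem_setOf_eq] at hg
        have hg' : H.src ((π I).symm g) = Φ.v I := by
          have := hs I ((π I).symm g)
          rw [Equiv.apply_symm_apply] at this
          rw [← this, hg]
        obtain ⟨f, hf1, hf2⟩ := Φ.exists_edge I hg'
        refine ⟨f, hf1, ?_⟩
        simp only [hf1, hf2, Equiv.apply_symm_apply])

lemma recolor_act (π : G.V → Equiv.Perm H.E) (hs : ∀ p g, H.src (π p g) = H.src g)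
    (ht : ∀ p g, H.tgt (π p g) = H.tgt g) (p : G.V) (g : H.E) :
    (Φ.recolor π hs ht).act p g = Φ.act p ((π p).symm g) := by
  have hsg : H.src ((π p).symm g) = H.src g := by
    have := hs p ((π p).symm g)
    rw [Equiv.apply_symm_apply] at this
    exact this.symm
  by_cases hg : H.src g = Φ.v p
  · obtain ⟨f, hf1, hf2⟩ := Φ.exists_edge p (g := (π p).symm g) (by rw [hsg, hg])
    have h1 : (Φ.recolor π hs ht).e f = g := by
      change π (G.src f) (Φ.e f) = g
      rw [hf1, hf2, Equiv.apply_symm_apply]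
    have h2 := (Φ.recolor π hs ht).act_eq f
    rw [h1, hf1] at h2
    have h3 := Φ.act_eq f
    rw [hf1, hf2] at h3
    rw [h2, h3]
  · rw [act_invalid _ (by exact hg), act_invalid _ (by rw [hsg]; exact hg)]

/-- recolouring by choice of permutations -/
lemma exists_recolor (Q : G.V → Equiv.Perm H.E → Prop)
    (h : ∀ p, ∃ π : Equiv.Perm H.E, (∀ g, H.src (π g) = H.src g ∧ H.tgt (π g) = H.tgt g) ∧ Q p π) :
    ∃ Φ' : RightResolver G H, Φ'.v = Φ.v ∧ ∀ p, ∃ π : Equiv.Perm H.E,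
      (∀ g, H.src (π g) = H.src g ∧ H.tgt (π g) = H.tgt g) ∧ Q p π ∧
      ∀ g, Φ'.act p g = Φ.act p (π g) := by
  choose π hπ hQ using h
  have hinv : ∀ p g, H.src ((π p).symm g) = H.src g ∧ H.tgt ((π p).symm g) = H.tgt g := by
    intro p g
    have := hπ p ((π p).symm g)
    rw [Equiv.apply_symm_apply] at this
    exact ⟨this.1.symm, this.2.symm⟩
  refine ⟨Φ.recolor (fun p => (π p).symm) (fun p g => (hinv p g).1) (fun p g => (hinv p g).2), rfl,
    fun p => ⟨π p, hπ p, hQ p, fun g => ?_⟩⟩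
  rw [recolor_act]; rfl

/-- swaps of two parallel edges are recolourings -/
lemma exists_flip {e1 e2 : H.E} (hs : H.src e1 = H.src e2) (ht : H.tgt e1 = H.tgt e2)
    (δ : Set G.V) : ∃ Φ' : RightResolver G H, Φ'.v = Φ.v ∧ Φ'.act = flip e1 e2 δ Φ.act := by
  obtain ⟨Φ', hv, hΦ'⟩ := Φ.exists_recolor
    (fun p π => π = if p ∈ δ then Equiv.swap e1 e2 else 1) (by
      intro p
      refine ⟨_, ?_, rfl⟩
      intro g
      split_ifs
      · exact ⟨s_swap hs g, t_swap hs ht g⟩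
      · exact ⟨rfl, rfl⟩)
  refine ⟨Φ', hv, ?_⟩
  funext p g
  obtain ⟨π, _, hπ, hact⟩ := hΦ' p
  rw [hact, hπ]
  by_cases hp : p ∈ δ
  · rw [if_pos hp, flip_of_mem hp]
  · rw [if_neg hp, flip_of_notMem hp]; rfl

end RightResolver

/-- permutations of parallel edges -/
lemma exists_perm1 (H : Graph) {e f : H.E} (hs : H.src e = H.src f) (ht : H.tgt e = H.tgt f) :
    ∃ π : Equiv.Perm H.E, (∀ g, H.src (π g) = H.src g ∧ H.tgt (π g) = H.tgt g) ∧
      (∀ g, ¬ (H.src g = H.src e ∧ H.tgt g = H.tgt e) → π g = g) ∧ π e = f := by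
  refine ⟨Equiv.swap e f, fun g => ⟨s_swap hs g, t_swap hs ht g⟩, ?_, Equiv.swap_apply_left _ _⟩
  intro g hg
  apply Equiv.swap_apply_of_ne_of_ne
  · rintro rfl; exact hg ⟨rfl, rfl⟩
  · rintro rfl; exact hg ⟨hs.symm, ht.symm⟩

lemma exists_perm2 (H : Graph) {e1 e2 f1 f2 : H.E} (he : e1 ≠ e2) (hf : f1 ≠ f2)
    (hs2 : H.src e1 = H.src e2) (ht2 : H.tgt e1 = H.tgt e2)
    (hs : H.src e1 = H.src f1) (ht : H.tgt e1 = H.tgt f1)
    (hs' : H.src e1 = H.src f2) (ht' : H.tgt e1 = H.tgt f2) :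
    ∃ π : Equiv.Perm H.E, (∀ g, H.src (π g) = H.src g ∧ H.tgt (π g) = H.tgt g) ∧
      (∀ g, ¬ (H.src g = H.src e1 ∧ H.tgt g = H.tgt e1) → π g = g) ∧ π e1 = f1 ∧ π e2 = f2 := by
  obtain ⟨π, hπ, hfix, h1⟩ := exists_perm1 H hs ht
  have hs3 : H.src (π e2) = H.src f2 := by rw [(hπ e2).1, ← hs2, hs']
  have ht3 : H.tgt (π e2) = H.tgt f2 := by rw [(hπ e2).2, ← ht2, ht']
  obtain ⟨ρ, hρ, hfix', h2⟩ := exists_perm1 H hs3 ht3
  refine ⟨(Equiv.swap (π e2) f2) * π, ?_, ?_, ?_, ?_⟩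
  · intro g
    rw [Equiv.Perm.mul_apply]
    exact ⟨by rw [s_swap hs3, (hπ g).1], by rw [t_swap hs3 ht3, (hπ g).2]⟩
  · intro g hg
    rw [Equiv.Perm.mul_apply, hfix g hg]
    apply Equiv.swap_apply_of_ne_of_ne
    · rintro rfl; exact hg ⟨by rw [(hπ e2).1, hs2], by rw [(hπ e2).2, ht2]⟩
    · rintro rfl; exact hg ⟨hs'.symm, ht'.symm⟩
  · rw [Equiv.Perm.mul_apply, h1]
    apply Equiv.swap_apply_of_ne_of_ne _ hf
    intro h
    exact he (π.injective (by rw [h1, h]))
  · rw [Equiv.Perm.mul_apply, Equiv.swap_apply_left]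

end Pool.Agent.H75.Bunchy
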